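import Pool.Agent.Helper83.PM.Escape

set_option autoImplicit false

open Set Filter Topology

namespace Pool.Agent.Helper83.PM

/-- lacunary lists -/
def Lacu (L : List (E × ℝ)) : Prop := L.Pairwise (fun o o' => o'.2 ≤ o.2 / 1000)

theorem lac_T {s : ℝ} : ∀ (L : List (E × ℝ)), Lacu L → (∀ o ∈ L, 0 < o.2 ∧ s ≤ o.2 / 1000) →
    ∀ bd : ℝ, s ≤ bd → 0 ≤ bd → (∀ o ∈ L, o.2 ≤ bd) → T s L ≤ 1.01 * bd := by
  intro L
  induction L with
  | nil => intro _ _ bd h1 h0 _; simp only [T]; linarith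
  | cons o L ih =>
    intro hl hs bd h1 h0 hb
    rw [Lacu, List.pairwise_cons] at hl
    have ho := hs o (List.mem_cons_self)
    have := ih hl.2 (fun o' ho' => hs o' (List.mem_cons_of_mem _ ho')) (o.2 / 1000) ho.2 (by linarith [ho.1])
      (fun o' ho' => hl.1 o' ho')
    have h3 := hb o (List.mem_cons_self)
    simp only [T]
    linarith [ho.1]

theorem lac_clear {s : ℝ} {p : E} : ∀ (L : List (E × ℝ)), Lacu L → (∀ o ∈ L, 0 < o.2 ∧ s ≤ o.2 / 1000) →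
    (∀ o ∈ L, 6 * o.2 ≤ dist p o.1) → Clear s p L := by
  intro L
  induction L with
  | nil => intro _ _ _; trivial
  | cons o L ih =>
    intro hl hs hd
    rw [Lacu, List.pairwise_cons] at hl
    have ho := hs o (List.mem_cons_self)
    have h1 := lac_T L hl.2 (fun o' ho' => hs o' (List.mem_cons_of_mem _ ho')) (o.2 / 1000) ho.2 (by linarith [ho.1])
      (fun o' ho' => hl.1 o' ho')
    have h2 := hd o (List.mem_cons_self)
    exact ⟨by linarith [ho.1], ih hl.2 (fun o' ho' => hs o' (List.mem_cons_of_mem _ ho'))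
      (fun o' ho' => hd o' (List.mem_cons_of_mem _ ho'))⟩

theorem ins_T {s : ℝ} {c : E × ℝ} {L2 : List (E × ℝ)} (hc : 0 < c.2) (hsc : s ≤ c.2 / 1000)
    (hl2 : Lacu L2) (hs2 : ∀ o ∈ L2, 0 < o.2 ∧ s ≤ o.2 / 1000) (hlt : ∀ o ∈ L2, o.2 ≤ c.2) :
    T s (c :: L2) ≤ 3.02 * c.2 := by
  have := lac_T L2 hl2 hs2 c.2 (by linarith) hc.le hlt
  simp only [T]; linarith

theorem ins_T' {s : ℝ} {c : E × ℝ} {L2 : List (E × ℝ)} (hc : 0 < c.2) (hsc : s ≤ c.2 / 1000)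
    (hl2 : Lacu L2) (hs2 : ∀ o ∈ L2, 0 < o.2 ∧ s ≤ o.2 / 1000) (hlt : ∀ o ∈ L2, o.2 ≤ c.2) :
    ∀ (L1 : List (E × ℝ)), Lacu L1 → (∀ o ∈ L1, 0 < o.2) → (∀ o ∈ L1, c.2 ≤ o.2) →
    ∀ o, Lacu (o :: L1) → c.2 ≤ o.2 → T s (o :: (L1 ++ c :: L2)) ≤ 7.1 * o.2 := by
  intro L1
  induction L1 with
  | nil =>
    intro _ _ _ o _ ho
    have := ins_T hc hsc hl2 hs2 hlt
    simp only [List.nil_append]
    rw [T]; linarith
  | cons x L1 ih =>
    intro h1 h2 h3 o h4 ho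
    rw [Lacu, List.pairwise_cons] at h1
    have h5 := ih h1.2 (fun o' ho' => h2 o' (List.mem_cons_of_mem _ ho')) (fun o' ho' => h3 o' (List.mem_cons_of_mem _ ho')) x
      (List.pairwise_cons.2 h1) (h3 x (List.mem_cons_self))
    rw [Lacu, List.pairwise_cons] at h4
    have h6 := h4.1 x (List.mem_cons_self)
    rw [List.cons_append, T]
    have h7 : 0 < x.2 := h2 x (List.mem_cons_self)
    linarith

theorem ins_clear {s : ℝ} {c : E × ℝ} {L2 : List (E × ℝ)} (hc : 0 < c.2) (hsc : s ≤ c.2 / 1000)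
    (hl2 : Lacu L2) (hs2 : ∀ o ∈ L2, 0 < o.2 ∧ s ≤ o.2 / 1000) (hlt : ∀ o ∈ L2, o.2 ≤ c.2) {p : E}
    (hp2 : ∀ o ∈ L2, 6 * o.2 ≤ dist p o.1) (hpc : 6 * c.2 ≤ dist p c.1) :
    ∀ (L1 : List (E × ℝ)), Lacu L1 → (∀ o ∈ L1, 0 < o.2) → (∀ o ∈ L1, c.2 ≤ o.2) →
    (∀ o ∈ L1, 6 * o.2 ≤ dist p o.1) → Clear s p (L1 ++ c :: L2) := by
  intro L1
  induction L1 with
  | nil =>
    intro _ _ _ _
    have := lac_T L2 hl2 hs2 c.2 (by linarith) hc.le hlt
    refine ⟨by linarith, lac_clear L2 hl2 hs2 hp2⟩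
  | cons x L1 ih =>
    intro h1 h2 h3 h4
    have h1' := h1
    rw [Lacu, List.pairwise_cons] at h1
    have h5 := ih h1.2 (fun o' ho' => h2 o' (List.mem_cons_of_mem _ ho')) (fun o' ho' => h3 o' (List.mem_cons_of_mem _ ho'))
      (fun o' ho' => h4 o' (List.mem_cons_of_mem _ ho'))
    have h6 := h4 x (List.mem_cons_self)
    have h7 : 0 < x.2 := h2 x (List.mem_cons_self)
    have h8 := h3 x (List.mem_cons_self)
    refine ⟨?_, h5⟩
    show x.2 + T s (L1 ++ c :: L2) ≤ dist p x.1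
    cases L1 with
    | nil =>
      have := ins_T hc hsc hl2 hs2 hlt
      simp only [List.nil_append]
      linarith
    | cons y L1 =>
      have h9 := ins_T' hc hsc hl2 hs2 hlt L1 (List.pairwise_cons.1 h1.2).2
        (fun o' ho' => h2 o' (List.mem_cons_of_mem _ (List.mem_cons_of_mem _ ho')))
        (fun o' ho' => h3 o' (List.mem_cons_of_mem _ (List.mem_cons_of_mem _ ho'))) y h1.2
        (h3 y (List.mem_cons_of_mem _ (List.mem_cons_self)))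
      have h10 := h1.1 y (List.mem_cons_self)
      rw [List.cons_append]
      linarith

theorem ins_T_all {s : ℝ} {c : E × ℝ} {L2 : List (E × ℝ)} (hc : 0 < c.2) (hsc : s ≤ c.2 / 1000)
    (hl2 : Lacu L2) (hs2 : ∀ o ∈ L2, 0 < o.2 ∧ s ≤ o.2 / 1000) (hlt : ∀ o ∈ L2, o.2 ≤ c.2)
    (L1 : List (E × ℝ)) (h1 : Lacu L1) (h2 : ∀ o ∈ L1, 0 < o.2) (h3 : ∀ o ∈ L1, c.2 ≤ o.2) {Q : ℝ}
    (hQc : c.2 ≤ Q) (hQ : ∀ o ∈ L1, o.2 ≤ Q) : T s (L1 ++ c :: L2) ≤ 8 * Q := by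
  cases L1 with
  | nil =>
    have := ins_T hc hsc hl2 hs2 hlt
    simp only [List.nil_append]
    linarith
  | cons y L1 =>
    have h9 := ins_T' hc hsc hl2 hs2 hlt L1 (List.pairwise_cons.1 h1).2
      (fun o' ho' => h2 o' (List.mem_cons_of_mem _ ho'))
      (fun o' ho' => h3 o' (List.mem_cons_of_mem _ ho')) y h1 (h3 y (List.mem_cons_self))
    have := hQ y (List.mem_cons_self)
    rw [List.cons_append]
    have h7 : 0 < y.2 := h2 y (List.mem_cons_self)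
    linarith

theorem far_T {s Q : ℝ} (hQ : 0 ≤ Q) {S : List (E × ℝ)} (hS : T s S ≤ 8 * Q) : ∀ (F : List (E × ℝ)),
    (∀ o ∈ F, o.2 = Q) → T s (F ++ S) ≤ 3 ^ F.length * (8 * Q) := by
  intro F
  induction F with
  | nil => intro _; simpa using hS
  | cons o F ih =>
    intro h
    have h1 := ih (fun o' ho' => h o' (List.mem_cons_of_mem _ ho'))
    have h2 := h o (List.mem_cons_self)
    rw [List.cons_append, T, List.length_cons, pow_succ]
    have h3 : (1:ℝ) ≤ 3 ^ F.length := one_le_pow₀ (by norm_num)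
    have h4 : Q ≤ 3 ^ F.length * Q := by nlinarith
    nlinarith

theorem far_clear {s Q : ℝ} (hQ : 0 ≤ Q) {S : List (E × ℝ)} (hS : T s S ≤ 8 * Q) {p : E} (hpS : Clear s p S) :
    ∀ (F : List (E × ℝ)), (∀ o ∈ F, o.2 = Q) → ∀ n : ℕ, F.length ≤ n → (∀ o ∈ F, 3 ^ n * (9 * Q) ≤ dist p o.1) →
    Clear s p (F ++ S) := by
  intro F
  induction F with
  | nil => intro _ n _ _; simpa using hpS
  | cons o F ih =>
    intro h n hn hd
    rw [List.length_cons] at hn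
    have h1 := ih (fun o' ho' => h o' (List.mem_cons_of_mem _ ho')) n (by omega)
      (fun o' ho' => hd o' (List.mem_cons_of_mem _ ho'))
    have h2 := h o (List.mem_cons_self)
    have h3 := hd o (List.mem_cons_self)
    have h4 := far_T hQ hS F (fun o' ho' => h o' (List.mem_cons_of_mem _ ho'))
    rw [List.cons_append]
    refine ⟨?_, h1⟩
    have h5 : (3:ℝ) ^ F.length ≤ 3 ^ n := pow_le_pow_right₀ (by norm_num) (by omega)
    have h6 : (1:ℝ) ≤ 3 ^ n := one_le_pow₀ (by norm_num)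
    have h7 : (3:ℝ) ^ F.length * (8 * Q) ≤ 3 ^ n * (8 * Q) := mul_le_mul_of_nonneg_right h5 (by linarith)
    have h8 : Q ≤ 3 ^ n * Q := by nlinarith
    rw [h2]
    nlinarith

theorem exists_small (L : List (E × ℝ)) (hL : ∀ o ∈ L, 0 < o.2) : ∃ s : ℝ, 0 < s ∧ ∀ o ∈ L, s ≤ o.2 / 1000 := by
  induction L with
  | nil => exact ⟨1, one_pos, by simp⟩
  | cons o L ih =>
    obtain ⟨s, hs, h⟩ := ih (fun o' ho' => hL o' (List.mem_cons_of_mem _ ho'))
    have := hL o (List.mem_cons_self)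
    refine ⟨min s (o.2 / 1000), lt_min hs (by linarith), ?_⟩
    intro o' ho'
    rcases List.mem_cons.1 ho' with rfl | ho'
    · exact min_le_right _ _
    · exact (min_le_left _ _).trans (h o' ho')

/-- The arrangement theorem: far obstacles `F` (all of radius `Q`), possibly a near obstacle `c`, and a lacunary list. -/
theorem arrange_some {Q : ℝ} (hQ : 0 < Q) (F : List (E × ℝ)) (hF : ∀ o ∈ F, o.2 = Q) (c : E × ℝ) (hc : 0 < c.2) (hcQ : c.2 ≤ Q)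
    (Le : List (E × ℝ)) (hLe : Lacu Le) (hpos : ∀ o ∈ Le, 0 < o.2) (hLQ : ∀ o ∈ Le, o.2 ≤ Q) (x y : E) (n : ℕ) (hn : F.length ≤ n)
    (hx : (∀ o ∈ F, 3 ^ n * (9 * Q) ≤ dist x o.1) ∧ (6 * c.2 ≤ dist x c.1) ∧ (∀ o ∈ Le, 6 * o.2 ≤ dist x o.1))
    (hy : (∀ o ∈ F, 3 ^ n * (9 * Q) ≤ dist y o.1) ∧ (6 * c.2 ≤ dist y c.1) ∧ (∀ o ∈ Le, 6 * o.2 ≤ dist y o.1)) :
    JoinedIn {z : E | (∀ o ∈ F, o.2 ≤ dist z o.1) ∧ (c.2 ≤ dist z c.1) ∧ (∀ o ∈ Le, o.2 ≤ dist z o.1)} x y := by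
  classical
  obtain ⟨s, hs, hsL⟩ := exists_small (c :: Le) (by
    intro o ho
    rcases List.mem_cons.1 ho with rfl | ho
    · exact hc
    · exact hpos o ho)
  set L1 := Le.filter (fun o => c.2 ≤ o.2) with hL1
  set L2 := Le.filter (fun o => ¬ c.2 ≤ o.2) with hL2
  have m1 : ∀ o ∈ L1, o ∈ Le ∧ c.2 ≤ o.2 := by
    intro o ho; simpa [hL1, List.mem_filter] using ho
  have m2 : ∀ o ∈ L2, o ∈ Le ∧ o.2 ≤ c.2 := by
    intro o ho
    have : o ∈ Le ∧ o.2 < c.2 := by simpa [hL2, List.mem_filter] using ho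
    exact ⟨this.1, this.2.le⟩
  have m3 : ∀ o ∈ Le, o ∈ L1 ∨ o ∈ L2 := by
    intro o ho
    by_cases h : c.2 ≤ o.2
    · left; simp [hL1, List.mem_filter, ho, h]
    · right; push Not at h; simp [hL2, List.mem_filter, ho, h]
  have l1 : Lacu L1 := hLe.filter _
  have l2 : Lacu L2 := hLe.filter _
  have hsc : s ≤ c.2 / 1000 := hsL c (List.mem_cons_self)
  have hs2 : ∀ o ∈ L2, 0 < o.2 ∧ s ≤ o.2 / 1000 := fun o ho =>
    ⟨hpos o (m2 o ho).1, hsL o (List.mem_cons_of_mem _ (m2 o ho).1)⟩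
  have hTS : T s (L1 ++ c :: L2) ≤ 8 * Q :=
    ins_T_all hc hsc l2 hs2 (fun o ho => (m2 o ho).2) L1 l1 (fun o ho => hpos o (m1 o ho).1) (fun o ho => (m1 o ho).2) hcQ
      (fun o ho => hLQ o (m1 o ho).1)
  have hcl : ∀ p : E, ((∀ o ∈ F, 3 ^ n * (9 * Q) ≤ dist p o.1) ∧ (6 * c.2 ≤ dist p c.1) ∧ (∀ o ∈ Le, 6 * o.2 ≤ dist p o.1)) →
      Clear s p (F ++ (L1 ++ c :: L2)) := by
    intro p hp
    refine far_clear hQ.le hTS ?_ F hF n hn hp.1
    exact ins_clear hc hsc l2 hs2 (fun o ho => (m2 o ho).2) (fun o ho => hp.2.2 o (m2 o ho).1) hp.2.1 L1 l1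
      (fun o ho => hpos o (m1 o ho).1) (fun o ho => (m1 o ho).2) (fun o ho => hp.2.2 o (m1 o ho).1)
  have hnn : ∀ o ∈ (F ++ (L1 ++ c :: L2)), 0 ≤ o.2 := by
    intro o ho
    rcases List.mem_append.1 ho with ho | ho
    · rw [hF o ho]; exact hQ.le
    rcases List.mem_append.1 ho with ho | ho
    · exact (hpos o (m1 o ho).1).le
    rcases List.mem_cons.1 ho with rfl | ho
    · exact hc.le
    · exact (hpos o (m2 o ho).1).le
  refine (escape hs _ hnn (hcl x hx) (hcl y hy)).mono ?_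
  intro z hz
  refine ⟨fun o ho => hz o (List.mem_append_left _ ho), hz c ?_, fun o ho => ?_⟩
  · exact List.mem_append_right _ (List.mem_append_right _ (List.mem_cons_self))
  · rcases m3 o ho with h | h
    · exact hz o (List.mem_append_right _ (List.mem_append_left _ h))
    · exact hz o (List.mem_append_right _ (List.mem_append_right _ (List.mem_cons_of_mem _ h)))

theorem arrange_none {Q : ℝ} (hQ : 0 < Q) (F : List (E × ℝ)) (hF : ∀ o ∈ F, o.2 = Q)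
    (Le : List (E × ℝ)) (hLe : Lacu Le) (hpos : ∀ o ∈ Le, 0 < o.2) (hLQ : ∀ o ∈ Le, o.2 ≤ Q) (x y : E) (n : ℕ) (hn : F.length ≤ n)
    (hx : (∀ o ∈ F, 3 ^ n * (9 * Q) ≤ dist x o.1) ∧ (∀ o ∈ Le, 6 * o.2 ≤ dist x o.1))
    (hy : (∀ o ∈ F, 3 ^ n * (9 * Q) ≤ dist y o.1) ∧ (∀ o ∈ Le, 6 * o.2 ≤ dist y o.1)) :
    JoinedIn {z : E | (∀ o ∈ F, o.2 ≤ dist z o.1) ∧ (∀ o ∈ Le, o.2 ≤ dist z o.1)} x y := by
  classical
  obtain ⟨s0, hs0, hsL⟩ := exists_small Le hpos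
  set s := min s0 Q
  have hs : 0 < s := lt_min hs0 hQ
  have hsL' : ∀ o ∈ Le, 0 < o.2 ∧ s ≤ o.2 / 1000 := fun o ho => ⟨hpos o ho, (min_le_left _ _).trans (hsL o ho)⟩
  have hTS : T s Le ≤ 8 * Q := by
    have := lac_T Le hLe hsL' Q (min_le_right _ _) hQ.le hLQ
    linarith
  have hcl : ∀ p : E, ((∀ o ∈ F, 3 ^ n * (9 * Q) ≤ dist p o.1) ∧ (∀ o ∈ Le, 6 * o.2 ≤ dist p o.1)) →
      Clear s p (F ++ Le) := fun p hp => far_clear hQ.le hTS (lac_clear Le hLe hsL' hp.2) F hF n hn hp.1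
  have hnn : ∀ o ∈ (F ++ Le), 0 ≤ o.2 := by
    intro o ho
    rcases List.mem_append.1 ho with ho | ho
    · rw [hF o ho]; exact hQ.le
    · exact (hpos o ho).le
  refine (escape hs _ hnn (hcl x hx) (hcl y hy)).mono ?_
  intro z hz
  exact ⟨fun o ho => hz o (List.mem_append_left _ ho), fun o ho => hz o (List.mem_append_right _ ho)⟩

end Pool.Agent.Helper83.PM
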