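import Pool.Agent.Helper83.PM.Arrange

set_option autoImplicit false

open Set Filter Topology

namespace Pool.Agent.Helper83.PM

/-- Base points (a finite set, far apart), a target `v`, lacunary obstacles. -/
theorem arrange {K δ : ℝ} (hK : 1 ≤ K) {n : ℕ} (hδ : 3 ^ (n + 1) * K ≤ δ) (Bs : Finset E) (hcard : Bs.card ≤ n)
    (hpw : ∀ p ∈ Bs, ∀ q ∈ Bs, p ≠ q → δ ≤ dist p q) (v : E) (hv : ∀ p ∈ Bs, v ≠ p)
    (Le : List (E × ℝ)) (hLe : Lacu Le) (hpos : ∀ o ∈ Le, 0 < o.2) (hLQ : ∀ o ∈ Le, o.2 ≤ K / 6)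
    (x : E) (hx : ∀ p ∈ Bs, δ ≤ dist x p) (hxL : ∀ o ∈ Le, 6 * o.2 ≤ dist x o.1)
    (hvL : ∀ o ∈ Le, 6 * o.2 ≤ dist v o.1) :
    JoinedIn {z : E | (∀ p ∈ Bs, min (dist v p) K / 6 ≤ dist z p) ∧ (∀ o ∈ Le, o.2 ≤ dist z o.1)} x v := by
  classical
  have hKpos : 0 < K := by linarith
  have h3 : (1:ℝ) ≤ 3 ^ (n + 1) := one_le_pow₀ (by norm_num)
  have hδ' : 3 ^ n * (9 * (K / 6)) ≤ δ / 2 := by
    have : (3:ℝ) ^ (n + 1) * K = 3 ^ n * (3 * K) := by ring
    rw [this] at hδ
    linarith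
  have hδK : K ≤ δ := by nlinarith
  have hδ0 : 0 < δ := by linarith
  by_cases h : ∃ p ∈ Bs, dist v p < δ / 2
  · obtain ⟨c, hc, hcd⟩ := h
    set F : List (E × ℝ) := (Bs.erase c).toList.map (fun q => (q, K / 6)) with hF
    have hFm : ∀ o ∈ F, o.1 ∈ Bs ∧ o.1 ≠ c ∧ o.2 = K / 6 := by
      intro o ho
      rw [hF, List.mem_map] at ho
      obtain ⟨q, hq, rfl⟩ := ho
      rw [Finset.mem_toList, Finset.mem_erase] at hq
      exact ⟨hq.2, hq.1, rfl⟩
    have hlen : F.length ≤ n := by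
      rw [hF, List.length_map, Finset.length_toList]
      exact (Finset.card_erase_le).trans hcard
    have hcd0 : 0 < dist v c := dist_pos.2 (hv c hc)
    have := arrange_some (Q := K / 6) (by positivity) F (fun o ho => (hFm o ho).2.2) (c, min (dist v c) K / 6)
      (by have := lt_min hcd0 hKpos; positivity) (by have := min_le_right (dist v c) K; simp only; linarith) Le hLe hpos hLQ
      x v n hlen ⟨?_, ?_, hxL⟩ ⟨?_, ?_, hvL⟩
    · refine this.mono ?_
      intro z hz
      refine ⟨fun p hp => ?_, hz.2.2⟩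
      by_cases hpc : p = c
      · rw [hpc]; exact hz.2.1
      · have := hz.1 (p, K / 6) (by
          rw [hF, List.mem_map]
          exact ⟨p, by rw [Finset.mem_toList, Finset.mem_erase]; exact ⟨hpc, hp⟩, rfl⟩)
        have h4 := min_le_right (dist v p) K
        simp only at this
        linarith
    · intro o ho
      have := hx o.1 (hFm o ho).1
      linarith
    · have := hx c hc
      have h4 := min_le_right (dist v c) K
      simp only
      linarith
    · intro o ho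
      have h4 := hpw o.1 (hFm o ho).1 c hc (hFm o ho).2.1
      have h5 := dist_triangle o.1 v c
      rw [dist_comm o.1 v] at h5
      linarith
    · have h4 := min_le_left (dist v c) K
      simp only
      linarith
  · push Not at h
    set F : List (E × ℝ) := Bs.toList.map (fun q => (q, K / 6)) with hF
    have hFm : ∀ o ∈ F, o.1 ∈ Bs ∧ o.2 = K / 6 := by
      intro o ho
      rw [hF, List.mem_map] at ho
      obtain ⟨q, hq, rfl⟩ := ho
      rw [Finset.mem_toList] at hq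
      exact ⟨hq, rfl⟩
    have hlen : F.length ≤ n := by
      rw [hF, List.length_map, Finset.length_toList]
      exact hcard
    have := arrange_none (Q := K / 6) (by positivity) F (fun o ho => (hFm o ho).2) Le hLe hpos hLQ
      x v n hlen ⟨?_, hxL⟩ ⟨?_, hvL⟩
    · refine this.mono ?_
      intro z hz
      refine ⟨fun p hp => ?_, hz.2⟩
      have := hz.1 (p, K / 6) (by
          rw [hF, List.mem_map]
          exact ⟨p, by rw [Finset.mem_toList]; exact hp, rfl⟩)
      have h4 := min_le_right (dist v p) K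
      simp only at this
      linarith
    · intro o ho
      have := hx o.1 (hFm o ho).1
      linarith
    · intro o ho
      have := h o.1 (hFm o ho).1
      linarith

/-- A batch of moves. -/
structure Batch (α β : Type) where
  pos : α → β → ℕ → ℝ → E
  N : ℕ
  r : ℝ
  ε : ℝ

namespace Batch
variable {α β : Type}

/-- the radius function of a batch -/
noncomputable def rad (b : Batch α β) (t : ℝ) : ℝ :=
  min 1 (max b.r (max (1 - t / b.ε) (1 - (1 - t) / b.ε)))

/-- the move is away from its base points at time t -/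
def Off (A : α → E) (B : β → E) (b : Batch α β) (a : α) (c : β) (i : ℕ) (t : ℝ) : Prop :=
  b.pos a c i t ≠ A a ∧ b.pos a c i t ≠ B c

structure Good (K : ℝ) (A : α → E) (B : β → E) (b : Batch α β) : Prop where
  cont : ∀ a c i, Continuous (b.pos a c i)
  left : ∀ a c i t, t ≤ 0 → b.pos a c i t = A a
  right : ∀ a c i t, 1 ≤ t → b.pos a c i t = B c
  r_pos : 0 < b.r
  r_le : b.r ≤ 1
  ε_pos : 0 < b.ε
  ε_le : b.ε ≤ 1 / 2
  off_mid : ∀ a c i t, i ≤ b.N → Off A B b a c i t → b.ε ≤ t ∧ t ≤ 1 - b.ε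
  uniq : ∀ a c i a' c' i' t, i ≤ b.N → i' ≤ b.N → Off A B b a c i t → Off A B b a' c' i' t →
    a = a' ∧ c = c' ∧ i = i'
  avoidA : ∀ a c i a' t, i ≤ b.N → a' ≠ a → 0 ≤ t → t ≤ 1 → 2 * K * b.rad t ≤ dist (b.pos a c i t) (A a')
  avoidB : ∀ a c i c' t, i ≤ b.N → c' ≠ c → 0 ≤ t → t ≤ 1 → 2 * K * b.rad t ≤ dist (b.pos a c i t) (B c')

theorem rad_cont (b : Batch α β) : Continuous b.rad := by
  unfold rad
  fun_prop

theorem rad_le_one (b : Batch α β) (t : ℝ) : b.rad t ≤ 1 := min_le_left _ _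

theorem rad_pos (b : Batch α β) (h : 0 < b.r) (t : ℝ) : 0 < b.rad t :=
  lt_min one_pos (lt_of_lt_of_le h (le_max_left _ _))

theorem rad_left (b : Batch α β) (hε : 0 < b.ε) {t : ℝ} (ht : t ≤ 0) : b.rad t = 1 := by
  unfold rad
  apply min_eq_left
  apply le_max_of_le_right
  apply le_max_of_le_left
  have : t / b.ε ≤ 0 := div_nonpos_of_nonpos_of_nonneg ht hε.le
  linarith

theorem rad_right (b : Batch α β) (hε : 0 < b.ε) {t : ℝ} (ht : 1 ≤ t) : b.rad t = 1 := by
  unfold rad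
  apply min_eq_left
  apply le_max_of_le_right
  apply le_max_of_le_right
  have : (1 - t) / b.ε ≤ 0 := div_nonpos_of_nonpos_of_nonneg (by linarith) hε.le
  linarith

theorem rad_mid (b : Batch α β) (hr : 0 < b.r) (hr1 : b.r ≤ 1) (hε : 0 < b.ε) {t : ℝ} (h1 : b.ε ≤ t)
    (h2 : t ≤ 1 - b.ε) : b.rad t = b.r := by
  unfold rad
  have h3 : 1 - t / b.ε ≤ 0 := by
    have : 1 ≤ t / b.ε := by rw [one_le_div hε]; exact h1
    linarith
  have h4 : 1 - (1 - t) / b.ε ≤ 0 := by
    have : 1 ≤ (1 - t) / b.ε := by rw [one_le_div hε]; linarith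
    linarith
  rw [max_eq_left ((max_le h3 h4).trans hr.le), min_eq_right hr1]

theorem rad_mono (b b' : Batch α β) (hr : b.r ≤ b'.r) (hε0 : 0 < b.ε) (hε : b.ε ≤ b'.ε) {t : ℝ} (h0 : 0 ≤ t)
    (h1 : t ≤ 1) : b.rad t ≤ b'.rad t := by
  unfold rad
  have hε' : 0 < b'.ε := lt_of_lt_of_le hε0 hε
  have h3 : 1 - t / b.ε ≤ 1 - t / b'.ε := by
    have : t / b'.ε ≤ t / b.ε := div_le_div_of_nonneg_left h0 hε0 hε
    linarith
  have h4 : 1 - (1 - t) / b.ε ≤ 1 - (1 - t) / b'.ε := by
    have : (1 - t) / b'.ε ≤ (1 - t) / b.ε := div_le_div_of_nonneg_left (by linarith) hε0 hε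
    linarith
  exact min_le_min le_rfl (max_le_max hr (max_le_max h3 h4))

/-- later batches are much thinner -/
structure Lac (K : ℝ) (b' b : Batch α β) : Prop where
  pos' : 0 < b'.r
  pos : 0 < b.r
  le : b.r ≤ b'.r / (1000 * K)
  ε_le : b.ε ≤ b'.ε

end Batch

end Pool.Agent.Helper83.PM
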