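import Mathlib

set_option autoImplicit false

open Set Filter Topology

namespace Pool.Agent.Helper83.PM

/-- the plane -/
abbrev E := EuclideanSpace ℝ (Fin 2)

/-- radial push out of the ball of radius `ρ` around `a` -/
noncomputable def push (a : E) (ρ : ℝ) (x : E) : E := a + (max 1 (ρ / ‖x - a‖)) • (x - a)

theorem push_sub (a : E) (ρ : ℝ) (x : E) : push a ρ x - a = (max 1 (ρ / ‖x - a‖)) • (x - a) := by
  simp [push]

theorem push_of_le {a : E} {ρ : ℝ} {x : E} (hx : x ≠ a) (h : ρ ≤ ‖x - a‖) : push a ρ x = x := by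
  have h0 : 0 < ‖x - a‖ := norm_pos_iff.2 (sub_ne_zero.2 hx)
  have h1 : ρ / ‖x - a‖ ≤ 1 := by rw [div_le_one h0]; exact h
  simp [push, max_eq_left h1]

theorem dist_push {a : E} {ρ : ℝ} {x : E} (hx : x ≠ a) :
    dist (push a ρ x) a = max (dist x a) ρ := by
  have h0 : 0 < ‖x - a‖ := norm_pos_iff.2 (sub_ne_zero.2 hx)
  rw [dist_eq_norm, push_sub, norm_smul, dist_eq_norm, Real.norm_eq_abs,
    abs_of_pos (lt_of_lt_of_le one_pos (le_max_left _ _)), max_mul_of_nonneg _ _ h0.le, one_mul,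
    div_mul_cancel₀ _ h0.ne']

theorem dist_push_self {a : E} {ρ : ℝ} {x : E} (hx : x ≠ a) (hρ : 0 ≤ ρ) :
    dist (push a ρ x) x ≤ ρ := by
  have h0 : 0 < ‖x - a‖ := norm_pos_iff.2 (sub_ne_zero.2 hx)
  by_cases h : ρ ≤ ‖x - a‖
  · rw [push_of_le hx h]; simpa using hρ
  · push Not at h
    have h1 : 1 ≤ ρ / ‖x - a‖ := by rw [one_le_div h0]; exact h.le
    have h2 : push a ρ x - x = (ρ / ‖x - a‖ - 1) • (x - a) := by
      rw [push, max_eq_right h1, sub_smul, one_smul]; abel
    rw [dist_eq_norm, h2, norm_smul, Real.norm_eq_abs, abs_of_nonneg (by linarith), sub_mul,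
      div_mul_cancel₀ _ h0.ne']
    linarith

theorem continuousAt_push {a : E} {ρ : ℝ} {x : E} (hx : x ≠ a) : ContinuousAt (push a ρ) x := by
  have h0 : ‖x - a‖ ≠ 0 := norm_ne_zero_iff.2 (sub_ne_zero.2 hx)
  unfold push
  have h1 : ContinuousAt (fun x : E => ‖x - a‖) x := by fun_prop
  have h2 : ContinuousAt (fun x : E => x - a) x := by fun_prop
  have h3 : ContinuousAt (fun x : E => ρ / ‖x - a‖) x := continuousAt_const.div h1 h0
  have h4 : ContinuousAt (fun x : E => max 1 (ρ / ‖x - a‖)) x := continuousAt_const.max h3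
  exact continuousAt_const.add (h4.smul h2)

/-- total displacement budget -/
noncomputable def T (s : ℝ) : List (E × ℝ) → ℝ
  | [] => s
  | (o :: L) => o.2 + 2 * T s L

/-- the point `x` is clear of the obstacles of the list, with the safety margins -/
def Clear (s : ℝ) (x : E) : List (E × ℝ) → Prop
  | [] => True
  | (o :: L) => o.2 + T s L ≤ dist x o.1 ∧ Clear s x L

theorem T_pos {s : ℝ} (hs : 0 < s) : ∀ L : List (E × ℝ), (∀ o ∈ L, 0 ≤ o.2) → 0 < T s L := by
  intro L
  induction L with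
  | nil => intro _; exact hs
  | cons o L ih =>
    intro h
    have h1 := ih (fun o' ho' => h o' (List.mem_cons_of_mem _ ho'))
    have h2 := h o (List.mem_cons_self)
    simp only [T]
    linarith

theorem escape_map {s : ℝ} (hs : 0 < s) : ∀ L : List (E × ℝ), (∀ o ∈ L, 0 ≤ o.2) →
    ∃ (P : E → E) (D : ℝ), 0 ≤ D ∧ D < T s L ∧
      (∀ x, (∀ o ∈ L, x ≠ o.1) → ContinuousAt P x) ∧
      (∀ x, (∀ o ∈ L, x ≠ o.1) → dist (P x) x ≤ D) ∧
      (∀ x, (∀ o ∈ L, x ≠ o.1) → ∀ o ∈ L, o.2 ≤ dist (P x) o.1) ∧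
      (∀ x, Clear s x L → P x = x) := by
  intro L
  induction L with
  | nil =>
    intro _
    refine ⟨id, 0, le_refl _, hs, fun x _ => continuousAt_id, fun x _ => by simp, ?_, fun x _ => rfl⟩
    intro x _ o ho
    simp at ho
  | cons o L ih =>
    intro h
    obtain ⟨P, D, hD0, hD, hc, hd, ho, hf⟩ := ih (fun o' ho' => h o' (List.mem_cons_of_mem _ ho'))
    have hR := h o (List.mem_cons_self)
    -- generic radius
    have hfin : (Set.Finite {r : ℝ | ∃ o' ∈ L, r = dist o'.1 o.1}) := by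
      have : {r : ℝ | ∃ o' ∈ L, r = dist o'.1 o.1} = (fun o' : E × ℝ => dist o'.1 o.1) '' {o' | o' ∈ L} := by
        ext r; simp only [mem_ofPred_eq, mem_image]
        constructor
        · rintro ⟨o', h1, h2⟩; exact ⟨o', h1, h2.symm⟩
        · rintro ⟨o', h1, h2⟩; exact ⟨o', h1, h2.symm⟩
      rw [this]
      exact (List.finite_toSet L).image _
    obtain ⟨ρ, hρ1, hρ2⟩ : ∃ ρ ∈ Ioo (o.2 + D) (o.2 + T s L), ρ ∉ {r : ℝ | ∃ o' ∈ L, r = dist o'.1 o.1} := by
      have hinf : (Ioo (o.2 + D) (o.2 + T s L)).Infinite := Ioo_infinite (by linarith)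
      exact hinf.exists_notMem_finite hfin
    have hρ0 : 0 ≤ ρ := by have := hρ1.1; linarith
    -- points stay off the other centres
    have key : ∀ x, (∀ o' ∈ (o :: L), x ≠ o'.1) → ∀ o' ∈ L, push o.1 ρ x ≠ o'.1 := by
      intro x hx o' ho' heq
      have hxo : x ≠ o.1 := hx o (List.mem_cons_self)
      by_cases hle : ρ ≤ ‖x - o.1‖
      · rw [push_of_le hxo hle] at heq
        exact hx o' (List.mem_cons_of_mem _ ho') heq
      · push Not at hle
        have h1 := dist_push (ρ := ρ) hxo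
        rw [max_eq_right (by rw [dist_eq_norm]; exact hle.le), heq] at h1
        exact hρ2 ⟨o', ho', h1.symm⟩
    refine ⟨fun x => P (push o.1 ρ x), D + ρ, by linarith, ?_, ?_, ?_, ?_, ?_⟩
    · simp only [T]; have := hρ1.2; linarith
    · intro x hx
      exact ContinuousAt.comp (f := push o.1 ρ) (g := P) (hc _ (key x hx)) (continuousAt_push (hx o (List.mem_cons_self)))
    · intro x hx
      have h1 := hd _ (key x hx)
      have h2 := dist_push_self (ρ := ρ) (hx o (List.mem_cons_self)) hρ0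
      have h3 := dist_triangle (P (push o.1 ρ x)) (push o.1 ρ x) x
      linarith
    · intro x hx o' ho'
      rcases List.mem_cons.1 ho' with rfl | ho'
      · have h1 := hd _ (key x hx)
        have h2 := dist_push (ρ := ρ) (hx _ (List.mem_cons_self))
        have h3 := dist_triangle (push o'.1 ρ x) (P (push o'.1 ρ x)) o'.1
        have h4 : ρ ≤ dist (push o'.1 ρ x) o'.1 := by rw [h2]; exact le_max_right _ _
        rw [dist_comm (push o'.1 ρ x) (P (push o'.1 ρ x))] at h3
        have := hρ1.1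
        linarith
      · exact ho _ (key x hx) o' ho'
    · intro x hx
      obtain ⟨hx1, hx2⟩ := hx
      have hT := T_pos hs L (fun o' ho' => h o' (List.mem_cons_of_mem _ ho'))
      have hxo : x ≠ o.1 := by
        intro heq
        rw [heq, dist_self] at hx1
        linarith
      have : push o.1 ρ x = x := by
        apply push_of_le hxo
        rw [← dist_eq_norm]
        have := hρ1.2
        linarith
      show P (push o.1 ρ x) = x
      rw [this]
      exact hf x hx2

theorem Clear.ne {s : ℝ} (hs : 0 < s) {x : E} : ∀ {L : List (E × ℝ)}, (∀ o ∈ L, 0 ≤ o.2) → Clear s x L →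
    ∀ o ∈ L, x ≠ o.1 := by
  intro L
  induction L with
  | nil => intro _ _ o ho; simp at ho
  | cons o L ih =>
    intro h hx o' ho'
    obtain ⟨hx1, hx2⟩ := hx
    rcases List.mem_cons.1 ho' with rfl | ho'
    · intro heq
      rw [heq, dist_self] at hx1
      have hT := T_pos hs L (fun o' ho' => h o' (List.mem_cons_of_mem _ ho'))
      have hR := h _ (List.mem_cons_self (a := o') (l := L))
      linarith
    · exact ih (fun o' ho' => h o' (List.mem_cons_of_mem _ ho')) hx2 o' ho'

/-- Escape lemma: two points that are clear of all obstacles can be joined outside all the balls. -/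
theorem escape {s : ℝ} (hs : 0 < s) (L : List (E × ℝ)) (hL : ∀ o ∈ L, 0 ≤ o.2) {x y : E}
    (hx : Clear s x L) (hy : Clear s y L) :
    JoinedIn {z : E | ∀ o ∈ L, o.2 ≤ dist z o.1} x y := by
  obtain ⟨P, D, -, -, hc, -, ho, hf⟩ := escape_map hs L hL
  have hcount : ({z : E | ∃ o ∈ L, z = o.1} : Set E).Countable := by
    have : {z : E | ∃ o ∈ L, z = o.1} = Prod.fst '' {o : E × ℝ | o ∈ L} := by
      ext z; simp only [mem_ofPred_eq, mem_image]
      constructor
      · rintro ⟨o', h1, h2⟩; exact ⟨o', h1, h2.symm⟩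
      · rintro ⟨o', h1, h2⟩; exact ⟨o', h1, h2.symm⟩
    rw [this]
    exact ((List.finite_toSet L).image _).countable
  have hrank : 1 < Module.rank ℝ E := by
    rw [rank_eq_card_basis (EuclideanSpace.basisFun (Fin 2) ℝ).toBasis]
    simp
  have hpc := Set.Countable.isPathConnected_compl_of_one_lt_rank hrank hcount
  have hxc : x ∈ ({z : E | ∃ o ∈ L, z = o.1} : Set E)ᶜ := by
    rintro ⟨o, ho, rfl⟩
    exact Clear.ne hs hL hx o ho rfl
  have hyc : y ∈ ({z : E | ∃ o ∈ L, z = o.1} : Set E)ᶜ := by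
    rintro ⟨o, ho, rfl⟩
    exact Clear.ne hs hL hy o ho rfl
  have hj := hpc.joinedIn x hxc y hyc
  obtain ⟨γ, hγ⟩ := hj
  have hγ' : ∀ t, ∀ o ∈ L, γ t ≠ o.1 := fun t o ho heq => hγ t ⟨o, ho, heq⟩
  refine ⟨⟨⟨fun t => P (γ t), ?_⟩, ?_, ?_⟩, ?_⟩
  · rw [continuous_iff_continuousAt]
    intro t
    exact ContinuousAt.comp (f := γ) (g := P) (hc _ (hγ' t)) γ.continuous.continuousAt
  · show P (γ 0) = x
    rw [γ.source]; exact hf x hx
  · show P (γ 1) = y
    rw [γ.target]; exact hf y hy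
  · intro t o hoL
    exact ho _ (hγ' t) o hoL

end Pool.Agent.Helper83.PM
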