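import Pool.Agent.Helper83.PM.Sets

set_option autoImplicit false

open Set Filter Topology

namespace Pool.Agent.Helper83.PM

structure Horn where
  f : ℝ → E
  r : ℝ → ℝ
  hf : Continuous f
  hr : Continuous r
  hpos : ∀ t, 0 < r t

/-- the combinatorial core -/
def HornFamily {ι : Type} (H : ι → Horn) : Prop :=
   (∀ i j, i ≠ j → ∀ C : ℝ, ∀ᶠ t in atTop, C * ((H i).r t + (H j).r t) < dist ((H i).f t) ((H j).f t)) ∧
   (∀ W : ℕ → Set (E × ℝ), (∀ n, IsOpen (W n)) → (∀ n, (W n).Nonempty) → (∀ n, ∀ p ∈ W n, (n:ℝ) < p.2) →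
      ∃ i, ∃ C : ℝ, ∃ᶠ n in atTop, ∃ p ∈ W n, dist p.1 ((H i).f p.2) ≤ C * (H i).r p.2)

theorem exists_hornFamily : ∃ (ι : Type) (H : ι → Horn), HornFamily H := by
  classical
  obtain ⟨V, hV0, hVo, hVt, hVW⟩ := exists_targets
  have hlev := fun k : ℕ => levelStmt ((k:ℝ) + 1) (by have := Nat.cast_nonneg (α := ℝ) k; linarith)
    (Fin k → Bool) (Fin (k + 1) → Bool) (yb k) (yb (k + 1)) (dl k) le_rfl
    (fun m n h => (us_ge k).trans (yb_same k m n h))
    (fun m n h => ((dl_mono k).trans (us_ge (k + 1))).trans (yb_same (k + 1) m n h))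
    (fun m n => yb_next k m n) V hVo hVt
  choose pos rad hpc hp0 hp1 hrc hrp hr0 hr1 hvis hL2 hL3 using hlev
  obtain ⟨G, hGm, hGlt, hGu⟩ := exists_scale
  let I := (ℕ → ℕ) × (ℕ → ℕ)
  -- level functions
  let tgt : I → ℕ → ℕ := fun i k => min (i.2 k) (i.1 k)
  let Fp : I → ℕ → ℝ → E := fun i k s => pos k (i.1 k) (lab i k) (lab i (k + 1)) (tgt i k) s
  let Rp : I → ℕ → ℝ → ℝ := fun i k s => rad k (i.1 k) s
  have htgt : ∀ i k, tgt i k ≤ i.1 k := fun i k => min_le_right _ _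
  have hFc : ∀ i : I, Continuous (fun t : ℝ => Fp i ⌊t⌋₊ (t - ⌊t⌋₊)) := by
    intro i
    refine glue (fun k t => Fp i k (t - k)) (fun k => yb k (lab i k)) ?_ ?_ ?_
    · intro k
      exact (hpc k _ _ _ _).comp (by fun_prop)
    · intro k t ht
      exact hp0 k _ _ _ _ _ (by linarith)
    · intro k t ht
      exact hp1 k _ _ _ _ _ (by linarith)
  have hRc : ∀ i : I, Continuous (fun t : ℝ => Rp i ⌊t⌋₊ (t - ⌊t⌋₊)) := by
    intro i
    refine glue (fun k t => Rp i k (t - k)) (fun _ => 1) ?_ ?_ ?_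
    · intro k
      exact (hrc k _).comp (by fun_prop)
    · intro k t ht
      exact hr0 k _ _ (by linarith)
    · intro k t ht
      exact hr1 k _ _ (by linarith)
  let HH : I → Horn := fun i => ⟨fun t => Fp i ⌊t⌋₊ (t - ⌊t⌋₊), fun t => Rp i ⌊t⌋₊ (t - ⌊t⌋₊), hFc i, hRc i,
    fun t => hrp _ _ _⟩
  have hHf : ∀ (i : I) (t : ℝ), (HH i).f t = Fp i ⌊t⌋₊ (t - ⌊t⌋₊) := fun _ _ => rfl
  have hHr : ∀ (i : I) (t : ℝ), (HH i).r t = Rp i ⌊t⌋₊ (t - ⌊t⌋₊) := fun _ _ => rfl
  -- far
  let Far : I → I → Prop := fun j i => ∀ R : ℝ, ∀ᶠ k in atTop, ∀ p ∈ V (tgt i k), R * Rp j k p.2 ≤ dist p.1 (Fp j k p.2)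
  let lt : I → I → Prop := Prod.Lex WellOrderingRel WellOrderingRel
  have hwf : WellFounded lt := WellFounded.prod_lex IsWellFounded.wf IsWellFounded.wf
  obtain ⟨S, hS⟩ := greedy lt hwf (fun i => G i.1) Far
  refine ⟨{i : I // S i}, fun i => HH i.1, ?_, ?_⟩
  · -- (A)
    have key : ∀ i j : I, S i → S j → i ≠ j → lt j i → ∀ C : ℝ, ∀ᶠ t in atTop,
        C * ((HH i).r t + (HH j).r t) < dist ((HH i).f t) ((HH j).f t) := by
      intro i j hi hj hne hlt C
      have hfl : Tendsto (fun t : ℝ => ⌊t⌋₊) atTop atTop := tendsto_nat_floor_atTop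
      have hlab := lab_ne hne
      have hlab' : ∀ᶠ k in atTop, lab i (k + 1) ≠ lab j (k + 1) := (tendsto_add_atTop_nat 1).eventually hlab
      have hK : ∀ c : ℝ, ∀ᶠ k : ℕ in atTop, c < (k:ℝ) + 1 := by
        intro c
        obtain ⟨n, hn⟩ := exists_nat_gt c
        filter_upwards [eventually_ge_atTop n] with k hk
        have : (n:ℝ) ≤ k := by exact_mod_cast hk
        linarith
      have hts : ∀ t : ℝ, 0 ≤ t → 0 ≤ t - ⌊t⌋₊ ∧ t - ⌊t⌋₊ ≤ 1 := by
        intro t ht
        have h1 := Nat.floor_le ht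
        have h2 := Nat.lt_floor_add_one t
        constructor <;> linarith
      rw [show lt = Prod.Lex WellOrderingRel WellOrderingRel from rfl, Prod.lex_def] at hlt
      rcases hlt with hlt | ⟨heq, -⟩
      · -- different g
        have hg := hGlt i.1 j.1 ((hS i).1 hi).1 ((hS j).1 hj).1 hlt
        have hfar : Far j i := ((hS i).1 hi).2 j (by rw [show lt = Prod.Lex WellOrderingRel WellOrderingRel from rfl, Prod.lex_def]; exact Or.inl hlt) hj
        have hfar' := hfar (24 * (|C| + 2))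
        filter_upwards [hfl.eventually hlab, hfl.eventually hlab', hfl.eventually hg, hfl.eventually hfar',
          hfl.eventually (hK (24 * (|C| + 2))), eventually_ge_atTop (0:ℝ)] with t e1 e2 e3 e4 e5 e6
        rw [hHf, hHf, hHr, hHr]
        obtain ⟨e7, e8⟩ := hts t e6
        have := hL3 ⌊t⌋₊ (i.1 ⌊t⌋₊) (j.1 ⌊t⌋₊) (tgt i ⌊t⌋₊) (tgt j ⌊t⌋₊) _ _ _ _ e3 (htgt i _) (htgt j _) e1 e2
          (24 * (|C| + 2)) e5.le e4 (t - ⌊t⌋₊) e7 e8
        refine lt_of_lt_of_le ?_ this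
        have h1 := hrp ⌊t⌋₊ (i.1 ⌊t⌋₊) (t - ⌊t⌋₊)
        have h2 := hrp ⌊t⌋₊ (j.1 ⌊t⌋₊) (t - ⌊t⌋₊)
        have h3 := le_abs_self C
        refine mul_lt_mul_of_pos_right ?_ (by simp only [Rp]; linarith)
        linarith
      · -- same g
        filter_upwards [hfl.eventually hlab, hfl.eventually hlab',
          hfl.eventually (hK C), eventually_ge_atTop (0:ℝ)] with t e1 e2 e5 e6
        rw [hHf, hHf, hHr, hHr]
        obtain ⟨e7, e8⟩ := hts t e6
        have := hL2 ⌊t⌋₊ (i.1 ⌊t⌋₊) (tgt i ⌊t⌋₊) (tgt j ⌊t⌋₊) _ _ _ _ (htgt i _) (by rw [← heq]; exact htgt j _) e1 e2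
          (t - ⌊t⌋₊) e7 e8
        have h1 := hrp ⌊t⌋₊ (i.1 ⌊t⌋₊) (t - ⌊t⌋₊)
        simp only [Rp, Fp]
        rw [heq]
        refine lt_of_lt_of_le ?_ this
        exact mul_lt_mul_of_pos_right e5 (by linarith)
    intro i j hij C
    have hne : i.1 ≠ j.1 := fun h => hij (Subtype.ext h)
    have htri : lt j.1 i.1 ∨ lt i.1 j.1 := by
      simp only [show lt = Prod.Lex WellOrderingRel WellOrderingRel from rfl, Prod.lex_def]
      rcases trichotomous_of (WellOrderingRel (α := ℕ → ℕ)) j.1.1 i.1.1 with h | h | h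
      · exact Or.inl (Or.inl h)
      · rcases trichotomous_of (WellOrderingRel (α := ℕ → ℕ)) j.1.2 i.1.2 with h' | h' | h'
        · exact Or.inl (Or.inr ⟨h, h'⟩)
        · exact absurd (Prod.ext h.symm h'.symm) hne
        · exact Or.inr (Or.inr ⟨h.symm, h'⟩)
      · exact Or.inr (Or.inl h)
    rcases htri with h | h
    · exact key i.1 j.1 i.2 j.2 hne h C
    · filter_upwards [key j.1 i.1 j.2 i.2 hne.symm h C] with t ht
      rw [add_comm, dist_comm]
      exact ht
  · -- (B)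
    intro W hWo hWn hWt
    have hex : ∀ n, ∃ k i : ℕ, n ≤ k ∧ (V i).Nonempty ∧ ∀ p ∈ V i, (p.1, p.2 + k) ∈ W n := by
      intro n
      obtain ⟨⟨x, t⟩, hx⟩ := hWn n
      -- a point with non-integer time
      have hn := (hWo n).mem_nhds hx
      rw [nhds_prod_eq, Filter.mem_prod_iff] at hn
      obtain ⟨U, hU, T, hT, hUT⟩ := hn
      have hTinf : T.Infinite := infinite_of_mem_nhds t hT
      obtain ⟨ε, hε, hb⟩ := Metric.mem_nhds_iff.1 hT
      -- choose s ∈ T non-integer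
      have hcount : (range (fun m : ℤ => (m:ℝ))).Countable := countable_range _
      obtain ⟨s, hs, hsT⟩ : ∃ s ∈ (range (fun m : ℤ => (m:ℝ)))ᶜ, s ∈ Metric.ball t ε :=
        (hcount.dense_compl ℝ).exists_mem_open Metric.isOpen_ball ⟨t, Metric.mem_ball_self hε⟩
      replace hsT := hb hsT
      have hxs : (x, s) ∈ W n := hUT ⟨mem_of_mem_nhds hU, hsT⟩
      have hns := hWt n _ hxs
      simp only at hns
      have hs0 : 0 ≤ s := (Nat.cast_nonneg n).trans hns.le
      have h1 := Nat.floor_le hs0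
      have h2 := Nat.lt_floor_add_one s
      have h3 : (⌊s⌋₊ : ℝ) ≠ s := by
        intro h
        exact hs ⟨(⌊s⌋₊ : ℤ), by push_cast; exact h⟩
      have h4 : (⌊s⌋₊ : ℝ) < s := lt_of_le_of_ne h1 h3
      have hpre : IsOpen ((fun p : E × ℝ => (p.1, p.2 + (⌊s⌋₊ : ℝ))) ⁻¹' (W n)) := (hWo n).preimage (by fun_prop)
      obtain ⟨i, hi1, hi2⟩ := hVW _ hpre ⟨(x, s - ⌊s⌋₊), by simpa using hxs, by simp only; linarith, by simp only; linarith⟩
      exact ⟨⌊s⌋₊, i, Nat.le_floor hns.le, hi1, fun p hp => hi2 hp⟩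
    choose kk ii hkk hii hW using hex
    let A : ℕ → Prop := fun k => ∃ n, kk n = k
    let nn : ℕ → ℕ := fun k => if h : A k then h.choose else 0
    have hnn : ∀ k, A k → kk (nn k) = k := by
      intro k h
      simp only [nn, dif_pos h]
      exact h.choose_spec
    have hAfreq : ∃ᶠ k in atTop, A k := by
      rw [frequently_atTop]
      intro a
      exact ⟨kk a, hkk a, a, rfl⟩
    have hfreq : ∀ (Pk : ℕ → Prop) (Q : ℕ → Prop), (∃ᶠ k in atTop, A k ∧ Pk k) → (∀ k, A k → Pk k → Q (nn k)) →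
        ∃ᶠ n in atTop, Q n := by
      intro Pk Q h1 h2
      rw [frequently_atTop]
      intro N
      obtain ⟨k, hk1, hk2⟩ := (h1.and_eventually (eventually_gt_atTop ((Finset.range N).sup kk))).exists
      refine ⟨nn k, ?_, h2 k hk1.1 hk1.2⟩
      by_contra hlt
      push Not at hlt
      have h3 : kk (nn k) ≤ (Finset.range N).sup kk := Finset.le_sup (Finset.mem_range.2 hlt)
      rw [hnn k hk1.1] at h3
      omega
    let h : ℕ → ℕ := fun k => ii (nn k)
    obtain ⟨g, hgG, hgf⟩ := hGu A h hAfreq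
    let P : ℕ → ℕ := fun k => if A k ∧ h k ≤ g k then h k else 0
    let i : I := (g, P)
    have htg : ∀ k, A k → h k ≤ g k → tgt i k = h k := by
      intro k h1 h2
      have : P k = h k := if_pos ⟨h1, h2⟩
      show min (P k) (g k) = h k
      rw [this]; exact min_eq_left h2
    have htg' : ∀ k, (V (tgt i k)).Nonempty → A k ∧ h k ≤ g k := by
      intro k hk
      by_contra hcon
      have : P k = 0 := if_neg hcon
      have h3 : tgt i k = 0 := by
        show min (P k) (g k) = 0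
        rw [this]; exact Nat.zero_min _
      rw [h3, hV0] at hk
      exact Set.not_nonempty_empty hk
    have hfloor : ∀ (k : ℕ) (s : ℝ), 0 < s → s < 1 → ⌊s + k⌋₊ = k := by
      intro k s h0 h1
      rw [Nat.floor_eq_iff (by positivity)]
      constructor <;> linarith
    by_cases hSi : S i
    · refine ⟨⟨i, hSi⟩, 1, ?_⟩
      refine hfreq (fun k => h k ≤ g k) _ hgf ?_
      intro k h1 h2
      have hne : (V (tgt i k)).Nonempty := by rw [htg k h1 h2]; exact hii _
      obtain ⟨t, ht⟩ := hvis k (i.1 k) (tgt i k) (lab i k) (lab i (k + 1)) (htgt i k) hne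
      obtain ⟨ht0, ht1⟩ := hVt _ _ ht
      simp only at ht0 ht1
      have hmem : (pos k (i.1 k) (lab i k) (lab i (k + 1)) (tgt i k) t, t + k) ∈ W (nn k) := by
        have h5 := hW (nn k)
        rw [hnn k h1] at h5
        have h6 : V (ii (nn k)) = V (tgt i k) := by rw [htg k h1 h2]
        rw [h6] at h5
        exact h5 _ ht
      refine ⟨_, hmem, ?_⟩
      simp only
      have h7 : (HH i).f (t + k) = pos k (i.1 k) (lab i k) (lab i (k + 1)) (tgt i k) t := by
        rw [hHf, hfloor k t ht0 ht1]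
        simp only [Fp, add_sub_cancel_right]
      rw [h7, dist_self]
      have := (HH i).hpos (t + k)
      linarith
    · have hnot : ¬ ∀ j, lt j i → S j → Far j i := fun hall => hSi ((hS i).2 ⟨hgG, hall⟩)
      push Not at hnot
      obtain ⟨j, hj1, hj2, hj3⟩ := hnot
      have hj4 : ∃ R : ℝ, ∃ᶠ k in atTop, ∃ p ∈ V (tgt i k), dist p.1 (Fp j k p.2) < R * Rp j k p.2 := by
        simp only [Far] at hj3
        push Not at hj3
        exact hj3
      obtain ⟨R, hR⟩ := hj4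
      refine ⟨⟨j, hj2⟩, R, ?_⟩
      refine hfreq (fun k => h k ≤ g k ∧ ∃ p ∈ V (tgt i k), dist p.1 (Fp j k p.2) < R * Rp j k p.2) _ ?_ ?_
      · refine hR.mono ?_
        rintro k ⟨p, hp1, hp2⟩
        obtain ⟨h8, h9⟩ := htg' k ⟨p, hp1⟩
        exact ⟨h8, h9, p, hp1, hp2⟩
      · rintro k h1 ⟨h2, p, hp1, hp2⟩
        obtain ⟨ht0, ht1⟩ := hVt _ _ hp1
        have hmem : (p.1, p.2 + k) ∈ W (nn k) := by
          have h5 := hW (nn k)
          rw [hnn k h1] at h5
          have h6 : V (ii (nn k)) = V (tgt i k) := by rw [htg k h1 h2]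
          rw [h6] at h5
          exact h5 _ hp1
        refine ⟨_, hmem, ?_⟩
        simp only
        rw [hHf, hHr, hfloor k p.2 ht0 ht1]
        simp only [add_sub_cancel_right]
        exact hp2.le

end Pool.Agent.Helper83.PM
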