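import Pool.Agent.Helper83.PM.PathEx

set_option autoImplicit false

open Set Filter Topology

namespace Pool.Agent.Helper83.PM

theorem exists_inj_choice {ι : Type} [Fintype ι] (S : ι → Set ℝ) (h : ∀ i, (S i).Infinite) :
    ∃ τ : ι → ℝ, Function.Injective τ ∧ ∀ i, τ i ∈ S i := by
  classical
  have key : ∀ s : Finset ι, ∃ τ : ι → ℝ, (∀ i ∈ s, τ i ∈ S i) ∧ Set.InjOn τ s := by
    intro s
    induction s using Finset.induction_on with
    | empty => exact ⟨fun _ => 0, by simp, by simp⟩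
    | insert a s ha ih =>
      obtain ⟨τ, h1, h2⟩ := ih
      obtain ⟨x, hx, hx'⟩ := (h a).exists_notMem_finset (s.image τ)
      have hne : ∀ i ∈ s, i ≠ a := fun i hi h => ha (h ▸ hi)
      refine ⟨Function.update τ a x, ?_, ?_⟩
      · intro i hi
        rcases Finset.mem_insert.1 hi with rfl | hi
        · simpa using hx
        · rw [Function.update_of_ne (hne i hi)]; exact h1 i hi
      · intro i hi j hj hij
        rw [Finset.mem_coe, Finset.mem_insert] at hi hj
        rcases hi with rfl | hi <;> rcases hj with rfl | hj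
        · rfl
        · rw [Function.update_self, Function.update_of_ne (hne j hj)] at hij
          exact absurd (Finset.mem_image.2 ⟨j, hj, hij.symm⟩) hx'
        · rw [Function.update_self, Function.update_of_ne (hne i hi)] at hij
          exact absurd (Finset.mem_image.2 ⟨i, hi, hij⟩) hx'
        · rw [Function.update_of_ne (hne i hi), Function.update_of_ne (hne j hj)] at hij
          exact h2 hi hj hij
  obtain ⟨τ, h1, h2⟩ := key Finset.univ
  exact ⟨τ, fun i j hij => h2 (Finset.mem_coe.2 (Finset.mem_univ i)) (Finset.mem_coe.2 (Finset.mem_univ j)) hij,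
    fun i => h1 i (Finset.mem_univ i)⟩

theorem exists_seq {X : Type} [Inhabited X] (P : ℕ → X → Prop) (R : X → X → Prop)
    (h : ∀ (n : ℕ) (g : ℕ → X), (∀ m, m < n → P m (g m)) → (∀ m m', m < m' → m' < n → R (g m) (g m')) →
      ∃ b, P n b ∧ ∀ m, m < n → R (g m) b) :
    ∃ f : ℕ → X, (∀ n, P n (f n)) ∧ ∀ m n, m < n → R (f m) (f n) := by
  classical
  let F : (n : ℕ) → (ℕ → X) → X := fun n g => if h : ∃ b, P n b ∧ ∀ m, m < n → R (g m) b then h.choose else default
  let f : ℕ → X := fun n => Nat.strongRec (motive := fun _ => X) (fun n prev => F n (fun m => if h : m < n then prev m h else default)) n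
  have hf : ∀ n, f n = F n (fun m => if m < n then f m else default) := by
    intro n
    show Nat.strongRec (motive := fun _ => X) _ n = _
    rw [Nat.strongRec_eq]
    rfl
  have key : ∀ n, P n (f n) ∧ ∀ m, m < n → R (f m) (f n) := by
    intro n
    induction n using Nat.strong_induction_on with
    | _ n ih =>
      set g : ℕ → X := fun m => if m < n then f m else default with hg
      have hgm : ∀ m, m < n → g m = f m := fun m hm => by rw [hg]; simp [hm]
      have hex : ∃ b, P n b ∧ ∀ m, m < n → R (g m) b := by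
        refine h n g ?_ ?_
        · intro m hm; rw [hgm m hm]; exact (ih m hm).1
        · intro m m' h1 h2; rw [hgm m (h1.trans h2), hgm m' h2]; exact (ih m' h2).2 m h1
      have e : f n = hex.choose := by
        rw [hf n]
        show F n g = _
        simp only [F]
        rw [dif_pos hex]
      rw [e]
      refine ⟨hex.choose_spec.1, fun m hm => ?_⟩
      rw [← hgm m hm]
      exact hex.choose_spec.2 m hm
  exact ⟨f, fun n => (key n).1, fun m n hmn => (key n).2 m hmn⟩

theorem small_ev {c : ℝ} (hc : 0 < c) : ∀ᶠ x in 𝓝[>] (0:ℝ), x < c := by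
  filter_upwards [Ioo_mem_nhdsGT hc] with x hx using hx.2

theorem exists_time_target {V : Set (E × ℝ)} (hVo : IsOpen V) (hVt : ∀ p ∈ V, 0 < p.2 ∧ p.2 < 1) (F : Set E) (hF : F.Finite) :
    {τ : ℝ | (0 < τ ∧ τ < 1) ∧ (V.Nonempty → ∃ v, (v, τ) ∈ V ∧ v ∉ F)}.Infinite := by
  by_cases h : V.Nonempty
  · obtain ⟨⟨v0, τ0⟩, h0⟩ := h
    have hn : V ∈ 𝓝 (v0, τ0) := hVo.mem_nhds h0
    rw [nhds_prod_eq, Filter.mem_prod_iff] at hn
    obtain ⟨U, hU, W, hW, hUW⟩ := hn
    have hUinf : U.Infinite := infinite_of_mem_nhds v0 hU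
    have hWinf : W.Infinite := infinite_of_mem_nhds τ0 hW
    obtain ⟨v, hv, hvF⟩ := hUinf.exists_notMem_finite hF
    refine hWinf.mono ?_
    intro τ hτ
    have hm : (v, τ) ∈ V := hUW ⟨hv, hτ⟩
    exact ⟨hVt _ hm, fun _ => ⟨v, hm, hvF⟩⟩
  · have : Ioo (0:ℝ) 1 ⊆ {τ : ℝ | (0 < τ ∧ τ < 1) ∧ (V.Nonempty → ∃ v, (v, τ) ∈ V ∧ v ∉ F)} :=
      fun τ hτ => ⟨hτ, fun h' => absurd h' h⟩
    exact (Ioo_infinite one_pos).mono this

namespace Batch
variable {α β : Type}

theorem extend [Fintype α] [Fintype β] [DecidableEq α] [DecidableEq β] {K δ : ℝ} (hK : 1 ≤ K)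
    {A : α → E} {B : β → E} (hδ : (3:ℝ) ^ (Fintype.card α + Fintype.card β + 3) * K ≤ δ)
    (hAA : ∀ m n, m ≠ n → δ ≤ dist (A m) (A n)) (hBB : ∀ m n, m ≠ n → δ ≤ dist (B m) (B n))
    (hAB : ∀ m n, δ ≤ dist (A m) (B n))
    (V : ℕ → Set (E × ℝ)) (hVo : ∀ i, IsOpen (V i)) (hVt : ∀ i, ∀ p ∈ V i, 0 < p.2 ∧ p.2 < 1)
    (Ls : List (Batch α β)) (hg : ∀ b ∈ Ls, Good K A B b) (hl : Ls.Pairwise (Lac K)) (N : ℕ) :
    ∃ b : Batch α β, b.N = N ∧ Good K A B b ∧ (∀ b' ∈ Ls, Lac K b' b) ∧
      (∀ i a c, i ≤ N → (V i).Nonempty → ∃ t, (b.pos a c i t, t) ∈ V i) ∧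
      (∀ b' ∈ Ls, ∀ a c i a' c' i', a ≠ a' → c ≠ c' → i ≤ N → i' ≤ b'.N → ∀ R : ℝ, R ≤ K →
        (∀ p ∈ V i, R * b'.rad p.2 ≤ dist p.1 (b'.pos a' c' i' p.2)) → ∀ t, 0 ≤ t → t ≤ 1 →
        (R / 24 - 1) * (b.rad t + b'.rad t) ≤ dist (b.pos a c i t) (b'.pos a' c' i' t)) := by
  classical
  have hK0 : 0 < K := by linarith
  have hδK : 2 * K ≤ δ := by
    have h3 : (1:ℝ) ≤ 3 ^ (Fintype.card α + Fintype.card β) := one_le_pow₀ (by norm_num)
    have h4 : (3:ℝ) ^ (Fintype.card α + Fintype.card β + 3) * K = 3 ^ (Fintype.card α + Fintype.card β) * (27 * K) := by ring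
    rw [h4] at hδ
    nlinarith
  set F : Set E := range A ∪ range B with hF
  have hFfin : F.Finite := (finite_range A).union (finite_range B)
  obtain ⟨τ, hτinj, hτ⟩ := exists_inj_choice (ι := α × β × Fin (N + 1))
    (fun j => {τ : ℝ | (0 < τ ∧ τ < 1) ∧ ((V j.2.2).Nonempty → ∃ v, (v, τ) ∈ V j.2.2 ∧ v ∉ F)})
    (fun j => exists_time_target (hVo _) (hVt _) F hFfin)
  have hv : ∀ j : α × β × Fin (N + 1), ∃ v : E, ((V j.2.2).Nonempty → (v, τ j) ∈ V j.2.2 ∧ v ∉ F) ∧ (¬ (V j.2.2).Nonempty → v = B j.2.1) := by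
    intro j
    by_cases h : (V j.2.2).Nonempty
    · obtain ⟨v, h1, h2⟩ := (hτ j).2 h
      exact ⟨v, fun _ => ⟨h1, h2⟩, fun h' => absurd h h'⟩
    · exact ⟨B j.2.1, fun h' => absurd h' h, fun _ => rfl⟩
  choose v hv1 hv2 using hv
  have hvA : ∀ j : α × β × Fin (N + 1), ∀ a', a' ≠ j.1 → v j ≠ A a' := by
    intro j a' ha'
    by_cases h : (V j.2.2).Nonempty
    · intro heq
      exact (hv1 j h).2 (by rw [heq, hF]; left; exact mem_range_self a')
    · rw [hv2 j h]
      intro heq
      have := hAB a' j.2.1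
      rw [heq, dist_self] at this
      linarith
  have hvB : ∀ j : α × β × Fin (N + 1), ∀ c', c' ≠ j.2.1 → v j ≠ B c' := by
    intro j c' hc'
    by_cases h : (V j.2.2).Nonempty
    · intro heq
      exact (hv1 j h).2 (by rw [heq, hF]; right; exact mem_range_self c')
    · rw [hv2 j h]
      intro heq
      have := hBB c' j.2.1 hc'
      rw [heq, dist_self] at this
      linarith
  have hγ := fun j : α × β × Fin (N + 1) => path_exists hK hδ hAA hBB hAB Ls hg hl j.1 j.2.1 (v j) (hvA j) (hvB j) (τ j)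
    (hτ j).1.1.le (hτ j).1.2.le
  choose γ hγc hγ0 hγm hγ1 hγA hγB hγP using hγ
  -- choice of η
  have hη : ∃ η : ℝ, 0 < η ∧ (∀ j, 2 * η < τ j ∧ 2 * η < 1 - τ j) ∧ (∀ j j', j ≠ j' → 2 * η < |τ j - τ j'|) ∧
      (∀ j, ∀ b' ∈ Ls, ∀ a' c' i', i' ≤ b'.N → ∀ t, |t - τ j| ≤ η →
        dist (b'.pos a' c' i' t) (b'.pos a' c' i' (τ j)) ≤ 4 * b'.rad (τ j) ∧ b'.rad t ≤ 2 * b'.rad (τ j)) := by
    have e1 : ∀ᶠ η in 𝓝[>] (0:ℝ), ∀ j, 2 * η < τ j ∧ 2 * η < 1 - τ j := by
      rw [eventually_all]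
      intro j
      have h1 := small_ev (c := τ j / 2) (by have := (hτ j).1.1; linarith)
      have h2 := small_ev (c := (1 - τ j) / 2) (by have := (hτ j).1.2; linarith)
      filter_upwards [h1, h2] with x h1 h2
      exact ⟨by linarith, by linarith⟩
    have e2 : ∀ᶠ η in 𝓝[>] (0:ℝ), ∀ j j', j ≠ j' → 2 * η < |τ j - τ j'| := by
      rw [eventually_all]
      intro j
      rw [eventually_all]
      intro j'
      by_cases h : j = j'
      · exact Eventually.of_forall (fun x hx => absurd h hx)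
      · have h0 : 0 < |τ j - τ j'| := abs_pos.2 (sub_ne_zero.2 (fun h' => h (hτinj h')))
        filter_upwards [small_ev (c := |τ j - τ j'| / 2) (by linarith)] with x hx _
        linarith
    have e3 : ∀ᶠ η in 𝓝[>] (0:ℝ), ∀ j, ∀ b' ∈ Ls, ∀ a' c' i', i' ≤ b'.N → ∀ t, |t - τ j| ≤ η →
        dist (b'.pos a' c' i' t) (b'.pos a' c' i' (τ j)) ≤ 4 * b'.rad (τ j) ∧ b'.rad t ≤ 2 * b'.rad (τ j) := by
      rw [eventually_all]
      intro j
      have e4 : ∀ᶠ t in 𝓝 (τ j), ∀ b' ∈ Ls, ∀ a' c', ∀ i' ∈ Finset.range (b'.N + 1),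
          dist (b'.pos a' c' i' t) (b'.pos a' c' i' (τ j)) ≤ 4 * b'.rad (τ j) ∧ b'.rad t ≤ 2 * b'.rad (τ j) := by
        have : ∀ b' ∈ {b | b ∈ Ls}, ∀ᶠ t in 𝓝 (τ j), ∀ a' c', ∀ i' ∈ Finset.range (b'.N + 1),
          dist (b'.pos a' c' i' t) (b'.pos a' c' i' (τ j)) ≤ 4 * b'.rad (τ j) ∧ b'.rad t ≤ 2 * b'.rad (τ j) := by
          intro b' hb'
          rw [eventually_all]
          intro a'
          rw [eventually_all]
          intro c'
          rw [Finset.eventually_all]
          intro i' _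
          have g := hg b' hb'
          have hr := b'.rad_pos g.r_pos (τ j)
          have h1 : Tendsto (b'.pos a' c' i') (𝓝 (τ j)) (𝓝 (b'.pos a' c' i' (τ j))) := (g.cont a' c' i').tendsto _
          have h2 : Tendsto b'.rad (𝓝 (τ j)) (𝓝 (b'.rad (τ j))) := b'.rad_cont.tendsto _
          have h3 := (Metric.tendsto_nhds.1 h1) (4 * b'.rad (τ j)) (by linarith)
          have h4 := h2.eventually_lt_const (u := 2 * b'.rad (τ j)) (by linarith)
          filter_upwards [h3, h4] with t h3 h4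
          exact ⟨h3.le, h4.le⟩
        exact (eventually_all_finite (List.finite_toSet Ls)).2 this
      rw [Metric.eventually_nhds_iff] at e4
      obtain ⟨ε, hε, he⟩ := e4
      filter_upwards [small_ev hε] with x hx
      intro b' hb' a' c' i' hi' t ht
      exact he (by rw [Real.dist_eq]; linarith) b' hb' a' c' i' (Finset.mem_range.2 (by omega))
    have e5 : ∀ᶠ η in 𝓝[>] (0:ℝ), 0 < η := self_mem_nhdsWithin
    obtain ⟨η, h5, h1, h2, h3⟩ := (e5.and (e1.and (e2.and e3))).exists
    exact ⟨η, h5, h1, h2, h3⟩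
  obtain ⟨η, hη0, hη1, hη2, hη3⟩ := hη
  -- choice of r
  have hr : ∃ r : ℝ, 0 < r ∧ r ≤ 1 ∧ (∀ b' ∈ Ls, r ≤ b'.r / (1000 * K)) ∧
      (∀ j : α × β × Fin (N + 1), ∀ a', a' ≠ j.1 → 2 * K * r ≤ min (dist (v j) (A a')) K / 6) ∧
      (∀ j : α × β × Fin (N + 1), ∀ c', c' ≠ j.2.1 → 2 * K * r ≤ min (dist (v j) (B c')) K / 6) := by
    have e1 : ∀ᶠ r in 𝓝[>] (0:ℝ), ∀ b' ∈ Ls, r ≤ b'.r / (1000 * K) := by
      have : ∀ b' ∈ {b | b ∈ Ls}, ∀ᶠ r in 𝓝[>] (0:ℝ), r ≤ b'.r / (1000 * K) := by
        intro b' hb'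
        have := (hg b' hb').r_pos
        filter_upwards [small_ev (c := b'.r / (1000 * K)) (by positivity)] with r hr using hr.le
      exact (eventually_all_finite (List.finite_toSet Ls)).2 this
    have e2 : ∀ᶠ r in 𝓝[>] (0:ℝ), ∀ j : α × β × Fin (N + 1), ∀ a', a' ≠ j.1 → 2 * K * r ≤ min (dist (v j) (A a')) K / 6 := by
      rw [eventually_all]
      intro j
      rw [eventually_all]
      intro a'
      by_cases h : a' = j.1
      · exact Eventually.of_forall (fun x hx => absurd h hx)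
      · have h0 : 0 < min (dist (v j) (A a')) K / 6 := by
          have := lt_min (dist_pos.2 (hvA j a' h)) hK0
          linarith
        filter_upwards [small_ev (c := min (dist (v j) (A a')) K / 6 / (2 * K)) (by positivity)] with r hr _
        rw [lt_div_iff₀ (by positivity)] at hr
        linarith
    have e3 : ∀ᶠ r in 𝓝[>] (0:ℝ), ∀ j : α × β × Fin (N + 1), ∀ c', c' ≠ j.2.1 → 2 * K * r ≤ min (dist (v j) (B c')) K / 6 := by
      rw [eventually_all]
      intro j
      rw [eventually_all]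
      intro c'
      by_cases h : c' = j.2.1
      · exact Eventually.of_forall (fun x hx => absurd h hx)
      · have h0 : 0 < min (dist (v j) (B c')) K / 6 := by
          have := lt_min (dist_pos.2 (hvB j c' h)) hK0
          linarith
        filter_upwards [small_ev (c := min (dist (v j) (B c')) K / 6 / (2 * K)) (by positivity)] with r hr _
        rw [lt_div_iff₀ (by positivity)] at hr
        linarith
    have e5 : ∀ᶠ r in 𝓝[>] (0:ℝ), 0 < r := self_mem_nhdsWithin
    have e6 : ∀ᶠ r in 𝓝[>] (0:ℝ), r < 1 := small_ev one_pos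
    obtain ⟨r, h5, h6, h1, h2, h3⟩ := (e5.and (e6.and (e1.and (e2.and e3)))).exists
    exact ⟨r, h5, h6.le, h1, h2, h3⟩
  obtain ⟨r, hr0, hr1, hrL, hrA, hrB⟩ := hr
  -- choice of ε
  have hε : ∃ ε : ℝ, 0 < ε ∧ ε ≤ 1 / 2 ∧ ε ≤ η ∧ (∀ b' ∈ Ls, ε ≤ b'.ε) := by
    have e1 : ∀ᶠ r in 𝓝[>] (0:ℝ), ∀ b' ∈ Ls, r ≤ b'.ε := by
      have : ∀ b' ∈ {b | b ∈ Ls}, ∀ᶠ r in 𝓝[>] (0:ℝ), r ≤ b'.ε := by
        intro b' hb'
        filter_upwards [small_ev (hg b' hb').ε_pos] with r hr using hr.le
      exact (eventually_all_finite (List.finite_toSet Ls)).2 this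
    have e5 : ∀ᶠ r in 𝓝[>] (0:ℝ), 0 < r := self_mem_nhdsWithin
    have e6 : ∀ᶠ r in 𝓝[>] (0:ℝ), r < 1 / 2 := small_ev (by norm_num)
    obtain ⟨r, h5, h6, h1, h2⟩ := (e5.and (e6.and (e1.and (small_ev hη0)))).exists
    exact ⟨r, h5, h6.le, h2.le, h1⟩
  obtain ⟨ε, hε0, hε1, hεη, hεL⟩ := hε
  -- the new batch
  set idx : ℕ → Fin (N + 1) := fun i => ⟨min i N, by omega⟩ with hidx
  set b : Batch α β := ⟨fun a c i t => γ (a, c, idx i) ((t - τ (a, c, idx i) + η) / (2 * η)), N, r, ε⟩ with hb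
  have hbpos : ∀ a c i t, b.pos a c i t = γ (a, c, idx i) ((t - τ (a, c, idx i) + η) / (2 * η)) := fun a c i t => rfl
  have hbr : b.r = r := rfl
  have hbε : b.ε = ε := rfl
  have hbN : b.N = N := rfl
  have hL : ∀ a c i t, t ≤ τ (a, c, idx i) - η → b.pos a c i t = A a := by
    intro a c i t ht
    rw [hbpos]
    apply hγ0
    apply div_nonpos_of_nonpos_of_nonneg <;> linarith
  have hR : ∀ a c i t, τ (a, c, idx i) + η ≤ t → b.pos a c i t = B c := by
    intro a c i t ht
    rw [hbpos]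
    apply hγ1
    rw [one_le_div (by linarith)]
    linarith
  have hoff : ∀ a c i t, Off A B b a c i t → τ (a, c, idx i) - η < t ∧ t < τ (a, c, idx i) + η := by
    intro a c i t h
    constructor
    · by_contra h'
      push Not at h'
      exact h.1 (hL a c i t h')
    · by_contra h'
      push Not at h'
      exact h.2 (hR a c i t h')
  have hoffm : ∀ a c i t, τ (a, c, idx i) - η < t → t < τ (a, c, idx i) + η → ε ≤ t ∧ t ≤ 1 - ε := by
    intro a c i t h1 h2
    have := hη1 (a, c, idx i)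
    exact ⟨by linarith [this.1], by linarith [this.2]⟩
  have hradm : ∀ a c i t, τ (a, c, idx i) - η < t → t < τ (a, c, idx i) + η → b.rad t = r := by
    intro a c i t h1 h2
    obtain ⟨h3, h4⟩ := hoffm a c i t h1 h2
    exact b.rad_mid hr0 hr1 hε0 h3 h4
  have hrad1 : ∀ t, 2 * K * b.rad t ≤ δ := by
    intro t
    have := b.rad_le_one t
    nlinarith
  have hgood : Good K A B b := by
    refine ⟨?_, ?_, ?_, hr0, hr1, hε0, hε1, ?_, ?_, ?_, ?_⟩
    · intro a c i
      have : b.pos a c i = fun t => γ (a, c, idx i) ((t - τ (a, c, idx i) + η) / (2 * η)) := rfl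
      rw [this]
      exact (hγc (a, c, idx i)).comp (by fun_prop)
    · intro a c i t ht
      apply hL
      have := hη1 (a, c, idx i)
      linarith [this.1]
    · intro a c i t ht
      apply hR
      have := hη1 (a, c, idx i)
      linarith [this.2]
    · intro a c i t _ h
      obtain ⟨h1, h2⟩ := hoff a c i t h
      exact hoffm a c i t h1 h2
    · intro a c i a' c' i' t hi hi' h h'
      obtain ⟨h1, h2⟩ := hoff a c i t h
      obtain ⟨h3, h4⟩ := hoff a' c' i' t h'
      by_contra hne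
      have hj : (a, c, idx i) ≠ (a', c', idx i') := by
        intro heq
        rw [Prod.mk.injEq, Prod.mk.injEq, hidx] at heq
        simp only [Fin.mk.injEq] at heq
        rw [hbN] at hi hi'
        apply hne
        refine ⟨heq.1, heq.2.1, ?_⟩
        have := heq.2.2
        rwa [min_eq_left hi, min_eq_left hi'] at this
      have h5 := hη2 _ _ hj
      have h6 : |τ (a, c, idx i) - τ (a', c', idx i')| < 2 * η := by
        rw [abs_lt]; constructor <;> linarith
      linarith
    · intro a c i a' t hi ha' h0 h1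
      by_cases hw : τ (a, c, idx i) - η < t ∧ t < τ (a, c, idx i) + η
      · rw [hradm a c i t hw.1 hw.2]
        exact (hrA (a, c, idx i) a' ha').trans (hγA (a, c, idx i) a' ha' _)
      · rw [not_and_or, not_lt, not_lt] at hw
        rcases hw with hw | hw
        · rw [hL a c i t hw]
          exact (hrad1 t).trans (hAA _ _ ha'.symm)
        · rw [hR a c i t hw, dist_comm]
          exact (hrad1 t).trans (hAB _ _)
    · intro a c i c' t hi hc' h0 h1
      by_cases hw : τ (a, c, idx i) - η < t ∧ t < τ (a, c, idx i) + η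
      · rw [hradm a c i t hw.1 hw.2]
        exact (hrB (a, c, idx i) c' hc').trans (hγB (a, c, idx i) c' hc' _)
      · rw [not_and_or, not_lt, not_lt] at hw
        rcases hw with hw | hw
        · rw [hL a c i t hw]
          exact (hrad1 t).trans (hAB _ _)
        · rw [hR a c i t hw]
          exact (hrad1 t).trans (hBB _ _ hc'.symm)
  refine ⟨b, rfl, hgood, ?_, ?_, ?_⟩
  · intro b' hb'
    exact ⟨(hg b' hb').r_pos, hr0, hrL b' hb', hεL b' hb'⟩
  · intro i a c hi hV
    have hidxi : ((idx i : Fin (N + 1)) : ℕ) = i := by rw [hidx]; exact min_eq_left hi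
    refine ⟨τ (a, c, idx i), ?_⟩
    rw [hbpos]
    have : (τ (a, c, idx i) - τ (a, c, idx i) + η) / (2 * η) = 1 / 2 := by field_simp; ring
    rw [this, hγm]
    have h1 := (hv1 (a, c, idx i) (by simp only [hidxi]; exact hV)).1
    simp only [hidxi] at h1
    exact h1
  · intro b' hb' a c i a' c' i' haa hcc hi hi' R hRK hV t h0 h1
    have g := hg b' hb'
    have hidxi : ((idx i : Fin (N + 1)) : ℕ) = i := by rw [hidx]; exact min_eq_left hi
    have hbt := b.rad_pos hr0 t
    have hbt' := b'.rad_pos g.r_pos t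
    by_cases hR1 : R < 1
    · have : (R / 24 - 1) * (b.rad t + b'.rad t) ≤ 0 :=
        mul_nonpos_of_nonpos_of_nonneg (by linarith) (by linarith)
      exact this.trans dist_nonneg
    push Not at hR1
    have hmono : b.rad t ≤ b'.rad t := by
      refine rad_mono b b' ?_ hε0 (hεL b' hb') h0 h1
      refine (hrL b' hb').trans ?_
      rw [div_le_iff₀ (by positivity)]
      have := g.r_pos
      nlinarith
    have hfar : (R / 24 - 1) * (b.rad t + b'.rad t) ≤ 2 * K * b'.rad t := by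
      have e1 : (R / 24 - 1) * (b.rad t + b'.rad t) ≤ (K / 24) * (b.rad t + b'.rad t) :=
        mul_le_mul_of_nonneg_right (by linarith) (by linarith)
      have e2 : (K / 24) * (b.rad t + b'.rad t) ≤ (K / 24) * (2 * b'.rad t) :=
        mul_le_mul_of_nonneg_left (by linarith) (by linarith)
      nlinarith
    by_cases hw : τ (a, c, idx i) - η < t ∧ t < τ (a, c, idx i) + η
    · rw [hradm a c i t hw.1 hw.2, hbpos]
      have hmono' : r ≤ b'.rad t := by rw [hradm a c i t hw.1 hw.2] at hmono; exact hmono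
      have hPv : R * b'.rad (τ (a, c, idx i)) ≤ dist (v (a, c, idx i)) (b'.pos a' c' i' (τ (a, c, idx i))) := by
        by_cases hne : (V i).Nonempty
        · have h2 := (hv1 (a, c, idx i) (by simp only [hidxi]; exact hne)).1
          simp only [hidxi] at h2
          exact hV _ h2
        · have h2 := hv2 (a, c, idx i) (by simp only [hidxi]; exact hne)
          rw [h2, dist_comm]
          have h3 := g.avoidB a' c' i' c (τ (a, c, idx i)) hi' hcc (hτ (a, c, idx i)).1.1.le (hτ (a, c, idx i)).1.2.le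
          have h4 := b'.rad_pos g.r_pos (τ (a, c, idx i))
          simp only
          nlinarith
      have h5 := hγP (a, c, idx i) b' hb' a' c' i' haa.symm hcc.symm hi' R hR1 hRK hPv ((t - τ (a, c, idx i) + η) / (2 * η))
      obtain ⟨h6, h7⟩ := hη3 (a, c, idx i) b' hb' a' c' i' hi' t (by rw [abs_le]; constructor <;> linarith [hw.1, hw.2])
      have h8 := dist_triangle (γ (a, c, idx i) ((t - τ (a, c, idx i) + η) / (2 * η))) (b'.pos a' c' i' t) (b'.pos a' c' i' (τ (a, c, idx i)))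
      by_cases hR24 : R / 24 - 1 ≤ 0
      · have : (R / 24 - 1) * (r + b'.rad t) ≤ 0 :=
          mul_nonpos_of_nonpos_of_nonneg hR24 (by linarith)
        exact this.trans dist_nonneg
      push Not at hR24
      have h9 : (R / 24 - 1) * (r + b'.rad t) ≤ (R / 24 - 1) * (4 * b'.rad (τ (a, c, idx i))) :=
        mul_le_mul_of_nonneg_left (by linarith) hR24.le
      nlinarith
    · rw [not_and_or, not_lt, not_lt] at hw
      rcases hw with hw | hw
      · rw [hL a c i t hw, dist_comm]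
        exact hfar.trans (g.avoidA a' c' i' a t hi' haa h0 h1)
      · rw [hR a c i t hw, dist_comm]
        exact hfar.trans (g.avoidB a' c' i' c t hi' hcc h0 h1)

end Batch

end Pool.Agent.Helper83.PM
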