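import Pool.Agent.Helper83.PM.Level

set_option autoImplicit false

open Set Filter Topology

namespace Pool.Agent.Helper83.PM

/-- PART III (one level) -/
def LevelStmt : Prop :=
  ∀ (K : ℝ), 1 ≤ K → ∀ (α β : Type) [Fintype α] [Fintype β] [DecidableEq α] [DecidableEq β] (A : α → E) (B : β → E) (δ : ℝ),
  (3:ℝ) ^ (Fintype.card α + Fintype.card β + 3) * K ≤ δ →
  (∀ m n, m ≠ n → δ ≤ dist (A m) (A n)) → (∀ m n, m ≠ n → δ ≤ dist (B m) (B n)) → (∀ m n, δ ≤ dist (A m) (B n)) →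
  ∀ (V : ℕ → Set (E × ℝ)), (∀ i, IsOpen (V i)) → (∀ i, ∀ p ∈ V i, 0 < p.2 ∧ p.2 < 1) →
  ∃ (pos : ℕ → α → β → ℕ → ℝ → E) (rad : ℕ → ℝ → ℝ),
    (∀ l a b i, Continuous (pos l a b i)) ∧
    (∀ l a b i t, t ≤ 0 → pos l a b i t = A a) ∧ (∀ l a b i t, 1 ≤ t → pos l a b i t = B b) ∧
    (∀ l, Continuous (rad l)) ∧ (∀ l t, 0 < rad l t) ∧ (∀ l t, t ≤ 0 → rad l t = 1) ∧ (∀ l t, 1 ≤ t → rad l t = 1) ∧
    (∀ l i a b, i ≤ l → (V i).Nonempty → ∃ t, (pos l a b i t, t) ∈ V i) ∧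
    (∀ l i i' a a' b b', i ≤ l → i' ≤ l → a ≠ a' → b ≠ b' → ∀ t, 0 ≤ t → t ≤ 1 →
        K * (rad l t + rad l t) ≤ dist (pos l a b i t) (pos l a' b' i' t)) ∧
    (∀ l l' i i' a a' b b', l' < l → i ≤ l → i' ≤ l' → a ≠ a' → b ≠ b' → ∀ R ≤ K,
       (∀ p ∈ V i, R * rad l' p.2 ≤ dist p.1 (pos l' a' b' i' p.2)) →
       ∀ t, 0 ≤ t → t ≤ 1 → (R / 24 - 1) * (rad l t + rad l' t) ≤ dist (pos l a b i t) (pos l' a' b' i' t))

open Batch in
theorem levelStmt : LevelStmt := by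
  intro K hK α β _ _ _ _ A B δ hδ hAA hBB hAB V hVo hVt
  have : Inhabited (Batch α β) := ⟨⟨fun _ _ _ _ => 0, 0, 0, 0⟩⟩
  have hK0 : 0 < K := by linarith
  have hδK : 2 * K ≤ δ := by
    have h3 : (1:ℝ) ≤ 3 ^ (Fintype.card α + Fintype.card β) := one_le_pow₀ (by norm_num)
    have h4 : (3:ℝ) ^ (Fintype.card α + Fintype.card β + 3) * K = 3 ^ (Fintype.card α + Fintype.card β) * (27 * K) := by ring
    rw [h4] at hδ
    nlinarith
  obtain ⟨f, hf1, hf2⟩ := exists_seq (X := Batch α β)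
    (fun n b => b.N = n ∧ Good K A B b ∧ (∀ i a c, i ≤ n → (V i).Nonempty → ∃ t, (b.pos a c i t, t) ∈ V i))
    (fun b' b => Lac K b' b ∧ ∀ a c i a' c' i', a ≠ a' → c ≠ c' → i ≤ b.N → i' ≤ b'.N → ∀ R : ℝ, R ≤ K →
        (∀ p ∈ V i, R * b'.rad p.2 ≤ dist p.1 (b'.pos a' c' i' p.2)) → ∀ t, 0 ≤ t → t ≤ 1 →
        (R / 24 - 1) * (b.rad t + b'.rad t) ≤ dist (b.pos a c i t) (b'.pos a' c' i' t))
    (by
      intro n g hg1 hg2
      have hgm : ∀ b ∈ (List.range n).map g, ∃ m, m < n ∧ g m = b := by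
        intro b hb
        rw [List.mem_map] at hb
        obtain ⟨m, hm, rfl⟩ := hb
        exact ⟨m, List.mem_range.1 hm, rfl⟩
      obtain ⟨b, h1, h2, h3, h4, h5⟩ := extend hK hδ hAA hBB hAB V hVo hVt ((List.range n).map g)
        (by
          intro b hb
          obtain ⟨m, hm, rfl⟩ := hgm b hb
          exact (hg1 m hm).2.1)
        (by
          rw [List.pairwise_map]
          refine List.Pairwise.imp_of_mem ?_ (List.pairwise_lt_range (n := n))
          intro a b ha hb hab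
          exact (hg2 a b hab (List.mem_range.1 hb)).1) n
      refine ⟨b, ⟨h1, h2, h4⟩, ?_⟩
      intro m hm
      have hmem : g m ∈ (List.range n).map g := List.mem_map.2 ⟨m, List.mem_range.2 hm, rfl⟩
      refine ⟨h3 _ hmem, ?_⟩
      intro a c i a' c' i' k1 k2 k3 k4
      exact h5 _ hmem a c i a' c' i' k1 k2 (h1 ▸ k3) k4)
  refine ⟨fun l => (f l).pos, fun l => (f l).rad, ?_, ?_, ?_, ?_, ?_, ?_, ?_, ?_, ?_, ?_⟩
  · intro l a b i; exact (hf1 l).2.1.cont a b i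
  · intro l a b i t ht; exact (hf1 l).2.1.left a b i t ht
  · intro l a b i t ht; exact (hf1 l).2.1.right a b i t ht
  · intro l; exact (f l).rad_cont
  · intro l t; exact (f l).rad_pos (hf1 l).2.1.r_pos t
  · intro l t ht; exact (f l).rad_left (hf1 l).2.1.ε_pos ht
  · intro l t ht; exact (f l).rad_right (hf1 l).2.1.ε_pos ht
  · intro l i a b hi hV; exact (hf1 l).2.2 i a b hi hV
  · intro l i i' a a' b b' hi hi' haa hbb t h0 h1
    have g := (hf1 l).2.1
    have hN : i ≤ (f l).N := by rw [(hf1 l).1]; exact hi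
    have hN' : i' ≤ (f l).N := by rw [(hf1 l).1]; exact hi'
    have hrad1 : 2 * K * (f l).rad t ≤ δ := by
      have := (f l).rad_le_one t
      nlinarith
    have e : K * ((f l).rad t + (f l).rad t) = 2 * K * (f l).rad t := by ring
    simp only
    rw [e]
    by_cases ho : Off A B (f l) a b i t
    · by_cases ho' : Off A B (f l) a' b' i' t
      · exact absurd (g.uniq a b i a' b' i' t hN hN' ho ho').1 haa
      · rw [Off, not_and_or, not_not, not_not] at ho'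
        rcases ho' with h | h
        · rw [h]; exact g.avoidA a b i a' t hN haa.symm h0 h1
        · rw [h]; exact g.avoidB a b i b' t hN hbb.symm h0 h1
    · rw [Off, not_and_or, not_not, not_not] at ho
      rcases ho with h | h
      · rw [h, dist_comm]; exact g.avoidA a' b' i' a t hN' haa h0 h1
      · rw [h, dist_comm]; exact g.avoidB a' b' i' b t hN' hbb h0 h1
  · intro l l' i i' a a' b b' hl hi hi' haa hbb R hR hV t h0 h1
    exact (hf2 l' l hl).2 a b i a' b' i' haa hbb (by rw [(hf1 l).1]; exact hi) (by rw [(hf1 l').1]; exact hi') R hR hV t h0 h1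

end Pool.Agent.Helper83.PM
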