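import Pool.Agent.Helper83.PM.Batch

set_option autoImplicit false

open Set Filter Topology

namespace Pool.Agent.Helper83.PM
namespace Batch
variable {α β : Type}

theorem path_exists [Fintype α] [Fintype β] [DecidableEq α] [DecidableEq β] {K δ : ℝ} (hK : 1 ≤ K)
    {A : α → E} {B : β → E} (hδ : (3:ℝ) ^ (Fintype.card α + Fintype.card β + 3) * K ≤ δ)
    (hAA : ∀ m n, m ≠ n → δ ≤ dist (A m) (A n)) (hBB : ∀ m n, m ≠ n → δ ≤ dist (B m) (B n))
    (hAB : ∀ m n, δ ≤ dist (A m) (B n))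
    (Ls : List (Batch α β)) (hg : ∀ b ∈ Ls, Good K A B b) (hl : Ls.Pairwise (Lac K))
    (a : α) (c : β) (v : E) (hvA : ∀ a', a' ≠ a → v ≠ A a') (hvB : ∀ c', c' ≠ c → v ≠ B c')
    (τ : ℝ) (h0 : 0 ≤ τ) (h1 : τ ≤ 1) :
    ∃ γ : ℝ → E, Continuous γ ∧ (∀ s, s ≤ 0 → γ s = A a) ∧ γ (1/2) = v ∧ (∀ s, 1 ≤ s → γ s = B c) ∧
      (∀ a', a' ≠ a → ∀ s, min (dist v (A a')) K / 6 ≤ dist (γ s) (A a')) ∧
      (∀ c', c' ≠ c → ∀ s, min (dist v (B c')) K / 6 ≤ dist (γ s) (B c')) ∧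
      (∀ b' ∈ Ls, ∀ a' c' i', a' ≠ a → c' ≠ c → i' ≤ b'.N → ∀ R : ℝ, 1 ≤ R → R ≤ K →
        R * b'.rad τ ≤ dist v (b'.pos a' c' i' τ) → ∀ s, R * b'.rad τ / 6 ≤ dist (γ s) (b'.pos a' c' i' τ)) := by
  classical
  have hK0 : 0 < K := by linarith
  have hδK : K ≤ δ := by
    have h3 : (1:ℝ) ≤ 3 ^ (Fintype.card α + Fintype.card β + 3) := one_le_pow₀ (by norm_num)
    nlinarith
  set Bs : Finset E := (Finset.univ.erase a).image A ∪ (Finset.univ.erase c).image B with hBs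
  have hBsm : ∀ p ∈ Bs, (∃ a', a' ≠ a ∧ p = A a') ∨ (∃ c', c' ≠ c ∧ p = B c') := by
    intro p hp
    rw [hBs, Finset.mem_union, Finset.mem_image, Finset.mem_image] at hp
    rcases hp with ⟨a', h, rfl⟩ | ⟨c', h, rfl⟩
    · left; exact ⟨a', Finset.ne_of_mem_erase h, rfl⟩
    · right; exact ⟨c', Finset.ne_of_mem_erase h, rfl⟩
  have hmA : ∀ a', a' ≠ a → A a' ∈ Bs := by
    intro a' h
    rw [hBs, Finset.mem_union, Finset.mem_image]
    left; exact ⟨a', Finset.mem_erase.2 ⟨h, Finset.mem_univ _⟩, rfl⟩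
  have hmB : ∀ c', c' ≠ c → B c' ∈ Bs := by
    intro c' h
    rw [hBs, Finset.mem_union, Finset.mem_image, Finset.mem_image]
    right; exact ⟨c', Finset.mem_erase.2 ⟨h, Finset.mem_univ _⟩, rfl⟩
  have hcard : Bs.card ≤ Fintype.card α + Fintype.card β := by
    refine (Finset.card_union_le _ _).trans ?_
    refine add_le_add ?_ ?_
    · exact Finset.card_image_le.trans ((Finset.card_le_univ _))
    · exact Finset.card_image_le.trans ((Finset.card_le_univ _))
  have hδ2 : (3:ℝ) ^ (Fintype.card α + Fintype.card β + 1) * K ≤ δ := by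
    refine le_trans ?_ hδ
    exact mul_le_mul_of_nonneg_right (pow_le_pow_right₀ (by norm_num) (by omega)) hK0.le
  have hpw : ∀ p ∈ Bs, ∀ q ∈ Bs, p ≠ q → δ ≤ dist p q := by
    intro p hp q hq hpq
    rcases hBsm p hp with ⟨a1, h, rfl⟩ | ⟨c1, h, rfl⟩
    · rcases hBsm q hq with ⟨a2, h', rfl⟩ | ⟨c2, h', rfl⟩
      · exact hAA _ _ (fun h => hpq (by rw [h]))
      · exact hAB _ _
    · rcases hBsm q hq with ⟨a2, h', rfl⟩ | ⟨c2, h', rfl⟩
      · rw [dist_comm]; exact hAB _ _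
      · exact hBB _ _ (fun h => hpq (by rw [h]))
  have hv : ∀ p ∈ Bs, v ≠ p := by
    intro p hp
    rcases hBsm p hp with ⟨a1, h, rfl⟩ | ⟨c1, h, rfl⟩
    · exact hvA _ h
    · exact hvB _ h
  -- the obstacle of a batch
  set cond : Batch α β → (α × β × ℕ) → Prop := fun b' q =>
    q.1 ≠ a ∧ q.2.1 ≠ c ∧ q.2.2 ≤ b'.N ∧ Off A B b' q.1 q.2.1 q.2.2 τ ∧ b'.r ≤ dist v (b'.pos q.1 q.2.1 q.2.2 τ) with hcond
  set obs : Batch α β → Option (E × ℝ) := fun b' =>
    if h : ∃ q, cond b' q then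
      some (b'.pos h.choose.1 h.choose.2.1 h.choose.2.2 τ,
        min (dist v (b'.pos h.choose.1 h.choose.2.1 h.choose.2.2 τ)) (K * b'.r) / 6)
    else none with hobs
  have hobs1 : ∀ b' o, obs b' = some o → ∃ a' c' i', a' ≠ a ∧ c' ≠ c ∧ i' ≤ b'.N ∧ Off A B b' a' c' i' τ ∧
      b'.r ≤ dist v (b'.pos a' c' i' τ) ∧ o = (b'.pos a' c' i' τ, min (dist v (b'.pos a' c' i' τ)) (K * b'.r) / 6) := by
    intro b' o ho
    rw [hobs] at ho
    simp only at ho
    split_ifs at ho with h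
    obtain ⟨q1, q2, q3, q4, q5⟩ := h.choose_spec
    refine ⟨_, _, _, q1, q2, q3, q4, q5, ?_⟩
    exact (Option.some.inj ho).symm
  have hobs2 : ∀ b' ∈ Ls, ∀ a' c' i', a' ≠ a → c' ≠ c → i' ≤ b'.N → Off A B b' a' c' i' τ →
      b'.r ≤ dist v (b'.pos a' c' i' τ) →
      obs b' = some (b'.pos a' c' i' τ, min (dist v (b'.pos a' c' i' τ)) (K * b'.r) / 6) := by
    intro b' hb' a' c' i' k1 k2 k3 k4 k5
    have h : ∃ q, cond b' q := ⟨(a', c', i'), k1, k2, k3, k4, k5⟩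
    rw [hobs]
    simp only
    rw [dif_pos h]
    obtain ⟨q1, q2, q3, q4, q5⟩ := h.choose_spec
    obtain ⟨e1, e2, e3⟩ := (hg b' hb').uniq _ _ _ _ _ _ _ q3 k3 q4 k4
    rw [e1, e2, e3]
  set Le := Ls.filterMap obs with hLe
  have hLem : ∀ o ∈ Le, ∃ b' ∈ Ls, ∃ a' c' i', a' ≠ a ∧ c' ≠ c ∧ i' ≤ b'.N ∧ Off A B b' a' c' i' τ ∧
      b'.r ≤ dist v (b'.pos a' c' i' τ) ∧ o = (b'.pos a' c' i' τ, min (dist v (b'.pos a' c' i' τ)) (K * b'.r) / 6) := by
    intro o ho
    rw [hLe, List.mem_filterMap] at ho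
    obtain ⟨b', hb', h⟩ := ho
    exact ⟨b', hb', hobs1 b' o h⟩
  have hLacu : Lacu Le := by
    rw [hLe, Lacu]
    refine List.Pairwise.filterMap obs ?_ hl
    intro b' b hL o ho o' ho'
    obtain ⟨a1, c1, i1, -, -, -, -, k1, rfl⟩ := hobs1 b' o ho
    obtain ⟨a2, c2, i2, -, -, -, -, k2, rfl⟩ := hobs1 b o' ho'
    simp only
    have e1 := hL.le
    have e2 := hL.pos'
    have e3 : K * b.r ≤ b'.r / 1000 := by
      have := mul_le_mul_of_nonneg_left e1 hK0.le
      rw [show K * (b'.r / (1000 * K)) = b'.r / 1000 by field_simp] at this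
      exact this
    have e4 : b'.r ≤ K * b'.r := by nlinarith
    have e5 : b'.r ≤ min (dist v (b'.pos a1 c1 i1 τ)) (K * b'.r) := le_min k1 e4
    have e6 := min_le_right (dist v (b.pos a2 c2 i2 τ)) (K * b.r)
    linarith
  have hLpos : ∀ o ∈ Le, 0 < o.2 := by
    intro o ho
    obtain ⟨b', hb', a', c', i', -, -, -, -, k, rfl⟩ := hLem o ho
    have := (hg b' hb').r_pos
    have e4 : 0 < K * b'.r := by positivity
    have : 0 < min (dist v (b'.pos a' c' i' τ)) (K * b'.r) := lt_min (by linarith) e4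
    simp only; linarith
  have hLQ : ∀ o ∈ Le, o.2 ≤ K / 6 := by
    intro o ho
    obtain ⟨b', hb', a', c', i', -, -, -, -, k, rfl⟩ := hLem o ho
    have := (hg b' hb').r_le
    have e4 : K * b'.r ≤ K := by nlinarith
    have e6 := min_le_right (dist v (b'.pos a' c' i' τ)) (K * b'.r)
    simp only; linarith
  have hvL : ∀ o ∈ Le, 6 * o.2 ≤ dist v o.1 := by
    intro o ho
    obtain ⟨b', hb', a', c', i', -, -, -, -, k, rfl⟩ := hLem o ho
    have e6 := min_le_left (dist v (b'.pos a' c' i' τ)) (K * b'.r)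
    simp only; linarith
  have hAL : ∀ o ∈ Le, 6 * o.2 ≤ dist (A a) o.1 := by
    intro o ho
    obtain ⟨b', hb', a', c', i', k1, k2, k3, k4, k5, rfl⟩ := hLem o ho
    have e6 := min_le_right (dist v (b'.pos a' c' i' τ)) (K * b'.r)
    have e7 := (hg b' hb').avoidA a' c' i' a τ k3 k1.symm h0 h1
    have e8 := (hg b' hb').off_mid a' c' i' τ k3 k4
    rw [b'.rad_mid (hg b' hb').r_pos (hg b' hb').r_le (hg b' hb').ε_pos e8.1 e8.2, dist_comm] at e7
    have e9 := (hg b' hb').r_pos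
    have : 0 < K * b'.r := by positivity
    simp only; linarith
  have hBL : ∀ o ∈ Le, 6 * o.2 ≤ dist (B c) o.1 := by
    intro o ho
    obtain ⟨b', hb', a', c', i', k1, k2, k3, k4, k5, rfl⟩ := hLem o ho
    have e6 := min_le_right (dist v (b'.pos a' c' i' τ)) (K * b'.r)
    have e7 := (hg b' hb').avoidB a' c' i' c τ k3 k2.symm h0 h1
    have e8 := (hg b' hb').off_mid a' c' i' τ k3 k4
    rw [b'.rad_mid (hg b' hb').r_pos (hg b' hb').r_le (hg b' hb').ε_pos e8.1 e8.2, dist_comm] at e7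
    have e9 := (hg b' hb').r_pos
    have : 0 < K * b'.r := by positivity
    simp only; linarith
  have hAx : ∀ p ∈ Bs, δ ≤ dist (A a) p := by
    intro p hp
    rcases hBsm p hp with ⟨a1, h, rfl⟩ | ⟨c1, h, rfl⟩
    · exact hAA _ _ h.symm
    · exact hAB _ _
  have hBx : ∀ p ∈ Bs, δ ≤ dist (B c) p := by
    intro p hp
    rcases hBsm p hp with ⟨a1, h, rfl⟩ | ⟨c1, h, rfl⟩
    · rw [dist_comm]; exact hAB _ _
    · exact hBB _ _ h.symm
  obtain ⟨p1, hp1⟩ := arrange hK hδ2 Bs hcard hpw v hv Le hLacu hLpos hLQ (A a) hAx hAL hvL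
  obtain ⟨p2, hp2⟩ := (arrange hK hδ2 Bs hcard hpw v hv Le hLacu hLpos hLQ (B c) hBx hBL hvL).symm
  have hall : ∀ s, (p1.trans p2).extend s ∈ {z : E | (∀ p ∈ Bs, min (dist v p) K / 6 ≤ dist z p) ∧ (∀ o ∈ Le, o.2 ≤ dist z o.1)} := by
    intro s
    have : (p1.trans p2).extend s ∈ range (p1.trans p2).extend := mem_range_self s
    rw [Path.extend_range, Path.trans_range] at this
    rcases this with ⟨t, ht⟩ | ⟨t, ht⟩
    · rw [← ht]; exact hp1 t
    · rw [← ht]; exact hp2 t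
  refine ⟨(p1.trans p2).extend, (p1.trans p2).continuous_extend, fun s hs => Path.extend_of_le_zero _ hs, ?_,
    fun s hs => Path.extend_of_one_le _ hs, ?_, ?_, ?_⟩
  · rw [Path.extend_apply _ (by constructor <;> norm_num), Path.trans_apply]
    simp
  · intro a' ha' s
    exact (hall s).1 _ (hmA a' ha')
  · intro c' hc' s
    exact (hall s).1 _ (hmB c' hc')
  · intro b' hb' a' c' i' k1 k2 k3 R hR1 hRK hv' s
    have g := hg b' hb'
    by_cases hoff : Off A B b' a' c' i' τ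
    · have e8 := g.off_mid a' c' i' τ k3 hoff
      rw [b'.rad_mid g.r_pos g.r_le g.ε_pos e8.1 e8.2] at hv' ⊢
      have e9 := g.r_pos
      have e10 : b'.r ≤ R * b'.r := by nlinarith
      have e11 := hobs2 b' hb' a' c' i' k1 k2 k3 hoff (e10.trans hv')
      have e12 : (b'.pos a' c' i' τ, min (dist v (b'.pos a' c' i' τ)) (K * b'.r) / 6) ∈ Le := by
        rw [hLe, List.mem_filterMap]
        exact ⟨b', hb', e11⟩
      have e13 := (hall s).2 _ e12
      simp only at e13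
      have e14 : R * b'.r ≤ min (dist v (b'.pos a' c' i' τ)) (K * b'.r) :=
        le_min hv' (mul_le_mul_of_nonneg_right hRK e9.le)
      linarith
    · have e15 : R * b'.rad τ ≤ K := by
        have e16 := b'.rad_le_one τ
        have e17 := b'.rad_pos g.r_pos τ
        nlinarith
      rw [Off, not_and_or, not_not, not_not] at hoff
      rcases hoff with h | h
      · rw [h] at hv' ⊢
        have e18 := (hall s).1 _ (hmA a' k1)
        have := le_min hv' e15
        linarith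
      · rw [h] at hv' ⊢
        have e18 := (hall s).1 _ (hmB c' k2)
        have := le_min hv' e15
        linarith

end Batch

end Pool.Agent.Helper83.PM
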