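import Pool.Agent.Helper83.PM.LevelMain

set_option autoImplicit false

open Set Filter Topology

namespace Pool.Agent.Helper83.PM

/-- greedy choice along a well-founded relation -/
theorem greedy {I : Type} (lt : I → I → Prop) (hwf : WellFounded lt) (Q : I → Prop) (compat : I → I → Prop) :
    ∃ S : I → Prop, ∀ i, S i ↔ (Q i ∧ ∀ j, lt j i → S j → compat j i) := by
  refine ⟨hwf.fix (C := fun _ => Prop) (fun i ih => Q i ∧ ∀ j (h : lt j i), ih j h → compat j i), ?_⟩
  intro i
  rw [hwf.fix_eq]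

/-- a family of monotone functions, well ordered, unbounded on every infinite set -/
theorem exists_scale : ∃ (G : (ℕ → ℕ) → Prop), (∀ g, G g → Monotone g) ∧
    (∀ g g', G g → G g' → WellOrderingRel g' g → ∀ᶠ k in atTop, g' k < g k) ∧
    (∀ (A : ℕ → Prop) (h : ℕ → ℕ), (∃ᶠ k in atTop, A k) → ∃ g, G g ∧ ∃ᶠ k in atTop, A k ∧ h k ≤ g k) := by
  classical
  obtain ⟨G, hG⟩ := greedy (WellOrderingRel (α := ℕ → ℕ)) (IsWellFounded.wf) Monotone
    (fun g' g => ∀ᶠ k in atTop, g' k < g k)
  refine ⟨G, fun g hg => ((hG g).1 hg).1, fun g g' hg hg' hlt => ((hG g).1 hg).2 g' hlt hg', ?_⟩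
  intro A h hA
  by_contra hcon
  push Not at hcon
  have hnx : ∀ k, ∃ n, k ≤ n ∧ A n := by
    intro k
    obtain ⟨n, h1, h2⟩ := (hA.and_eventually (eventually_ge_atTop k)).exists
    exact ⟨n, h2, h1⟩
  choose nx hnx1 hnx2 using hnx
  set m : ℕ → ℕ := fun k => ∑ j ∈ Finset.range (k + 1), (h (nx j) + 1) with hm
  have hmono : Monotone m := by
    intro a b hab
    apply Finset.sum_le_sum_of_subset
    intro x hx
    rw [Finset.mem_range] at hx ⊢
    omega
  have hge : ∀ k, h (nx k) < m k := by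
    intro k
    have : h (nx k) + 1 ≤ m k :=
      Finset.single_le_sum (f := fun j => h (nx j) + 1) (fun _ _ => Nat.zero_le _) (Finset.mem_range.2 (Nat.lt_succ_self k))
    omega
  have hlt : ∀ g, G g → ∀ᶠ k in atTop, g k < m k := by
    intro g hg
    have h1 := hcon g hg
    have hgm := ((hG g).1 hg).1
    rw [eventually_atTop] at h1 ⊢
    obtain ⟨b, hb⟩ := h1
    refine ⟨b, fun k hk => ?_⟩
    have h2 := hb (nx k) (hk.trans (hnx1 k)) (hnx2 k)
    have h3 := hgm (hnx1 k)
    have h4 := hge k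
    omega
  have hGm : G m := (hG m).2 ⟨hmono, fun g _ hg => hlt g hg⟩
  obtain ⟨k, hk⟩ := (hlt m hGm).exists
  exact lt_irrefl _ hk

/-- gluing of levels -/
theorem glue {X : Type} [TopologicalSpace X] [AddCommGroup X] [IsTopologicalAddGroup X] (F : ℕ → ℝ → X) (y : ℕ → X)
    (hF : ∀ k, Continuous (F k)) (h0 : ∀ (k : ℕ) (t : ℝ), t ≤ k → F k t = y k)
    (h1 : ∀ (k : ℕ) (t : ℝ), (k:ℝ) + 1 ≤ t → F k t = y (k + 1)) : Continuous (fun t => F ⌊t⌋₊ t) := by
  have key : ∀ (n : ℕ) (t : ℝ), t < n → F ⌊t⌋₊ t = y 0 + ∑ k ∈ Finset.range n, (F k t - y k) := by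
    intro n
    induction n with
    | zero =>
      intro t ht
      have : ⌊t⌋₊ = 0 := Nat.floor_eq_zero.2 (by push_cast at ht; linarith)
      rw [this]
      simp only [Finset.range_zero, Finset.sum_empty, add_zero]
      exact h0 0 t (by push_cast at ht ⊢; linarith)
    | succ n ih =>
      intro t ht
      rw [Finset.sum_range_succ]
      by_cases htn : t < n
      · rw [ih t htn, h0 n t htn.le]
        simp
      · push Not at htn
        have hfl : ⌊t⌋₊ = n := by
          rw [Nat.floor_eq_iff ((Nat.cast_nonneg n).trans htn)]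
          push_cast at ht
          exact ⟨htn, ht⟩
        rw [hfl]
        have hs : ∑ k ∈ Finset.range n, (F k t - y k) = y n - y 0 := by
          have : ∀ k ∈ Finset.range n, (F k t - y k) = y (k + 1) - y k := by
            intro k hk
            rw [Finset.mem_range] at hk
            have : (k:ℝ) + 1 ≤ n := by exact_mod_cast hk
            rw [h1 k t (this.trans htn)]
          rw [Finset.sum_congr rfl this]
          exact Finset.sum_range_sub y n
        rw [hs]
        abel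
  rw [continuous_iff_continuousAt]
  intro t
  obtain ⟨n, hn⟩ := exists_nat_gt t
  have hc : Continuous (fun t => y 0 + ∑ k ∈ Finset.range n, (F k t - y k)) := by
    refine continuous_const.add ?_
    refine continuous_finsetSum _ (fun k _ => ?_)
    exact (hF k).sub continuous_const
  refine hc.continuousAt.congr ?_
  filter_upwards [Iio_mem_nhds hn] with s hs
  exact (key n s hs).symm

/-- an injection of pairs of functions into the Cantor space -/
noncomputable def code (i : (ℕ → ℕ) × (ℕ → ℕ)) (m : ℕ) : Bool :=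
  decide (Nat.pair (i.1 m.unpair.1) (i.2 m.unpair.1) = m.unpair.2)

theorem code_injective : Function.Injective code := by
  intro i j h
  have key : ∀ n, i.1 n = j.1 n ∧ i.2 n = j.2 n := by
    intro n
    have h1 : code i (Nat.pair n (Nat.pair (i.1 n) (i.2 n))) = true := by
      simp [code]
    rw [h] at h1
    simp only [code, Nat.unpair_pair, decide_eq_true_eq] at h1
    rw [Nat.pair_eq_pair] at h1
    exact ⟨h1.1.symm, h1.2.symm⟩
  exact Prod.ext (funext fun n => (key n).1) (funext fun n => (key n).2)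

/-- restrictions of the label -/
noncomputable def lab (i : (ℕ → ℕ) × (ℕ → ℕ)) (k : ℕ) : Fin k → Bool := fun j => code i j

theorem lab_ne {i j : (ℕ → ℕ) × (ℕ → ℕ)} (h : i ≠ j) : ∀ᶠ k in atTop, lab i k ≠ lab j k := by
  have : ∃ n, code i n ≠ code j n := by
    by_contra hc
    push Not at hc
    exact h (code_injective (funext hc))
  obtain ⟨n, hn⟩ := this
  filter_upwards [eventually_gt_atTop n] with k hk heq
  exact hn (congrFun heq ⟨n, hk⟩)

/-- base points -/
noncomputable def dl (k : ℕ) : ℝ :=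
  (3:ℝ) ^ (Fintype.card (Fin k → Bool) + Fintype.card (Fin (k + 1) → Bool) + 3) * ((k:ℝ) + 1)

theorem dl_pos (k : ℕ) : 0 < dl k := by unfold dl; positivity

theorem dl_mono (k : ℕ) : dl k ≤ dl (k + 1) := by
  unfold dl
  have h1 : Fintype.card (Fin k → Bool) ≤ Fintype.card (Fin (k + 1) → Bool) := by
    simp only [Fintype.card_fun, Fintype.card_bool, Fintype.card_fin]
    exact Nat.pow_le_pow_right (by norm_num) (by omega)
  have h2 : Fintype.card (Fin (k + 1) → Bool) ≤ Fintype.card (Fin (k + 1 + 1) → Bool) := by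
    simp only [Fintype.card_fun, Fintype.card_bool, Fintype.card_fin]
    exact Nat.pow_le_pow_right (by norm_num) (by omega)
  refine mul_le_mul (pow_le_pow_right₀ (by norm_num) (by omega)) ?_ (by positivity) (by positivity)
  push_cast
  linarith

noncomputable def us (k : ℕ) : ℝ := ∑ j ∈ Finset.range (k + 1), dl j

theorem us_ge (k : ℕ) : dl k ≤ us k :=
  Finset.single_le_sum (f := dl) (fun j _ => (dl_pos j).le) (Finset.mem_range.2 (Nat.lt_succ_self k))

theorem us_succ (k : ℕ) : us (k + 1) = us k + dl (k + 1) := by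
  unfold us
  rw [Finset.sum_range_succ]

noncomputable def yb (k : ℕ) (s : Fin k → Bool) : E :=
  !₂[us k * ((Fintype.equivFin (Fin k → Bool) s : ℕ) : ℝ), us k]

theorem coord_le (x y : E) (i : Fin 2) : |x i - y i| ≤ dist x y := by
  have := PiLp.norm_apply_le (x - y) i
  rw [dist_eq_norm]
  simpa [Real.norm_eq_abs] using this

theorem yb_same (k : ℕ) (s s' : Fin k → Bool) (h : s ≠ s') : us k ≤ dist (yb k s) (yb k s') := by
  refine le_trans ?_ (coord_le _ _ 0)
  have h0 : 0 < us k := (dl_pos k).trans_le (us_ge k)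
  simp only [yb, PiLp.toLp_apply, Matrix.cons_val_zero]
  rw [← mul_sub, abs_mul, abs_of_pos h0]
  have h1 : ((Fintype.equivFin (Fin k → Bool) s : ℕ) : ℤ) ≠ ((Fintype.equivFin (Fin k → Bool) s' : ℕ) : ℤ) := by
    intro heq
    apply h
    apply (Fintype.equivFin (Fin k → Bool)).injective
    apply Fin.ext
    exact_mod_cast heq
  have h2 : (1:ℤ) ≤ |((Fintype.equivFin (Fin k → Bool) s : ℕ) : ℤ) - ((Fintype.equivFin (Fin k → Bool) s' : ℕ) : ℤ)| :=
    Int.one_le_abs (sub_ne_zero.2 h1)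
  have h3 : (1:ℝ) ≤ |((Fintype.equivFin (Fin k → Bool) s : ℕ) : ℝ) - ((Fintype.equivFin (Fin k → Bool) s' : ℕ) : ℝ)| := by
    exact_mod_cast h2
  nlinarith

theorem yb_next (k : ℕ) (s : Fin k → Bool) (s' : Fin (k + 1) → Bool) : dl k ≤ dist (yb k s) (yb (k + 1) s') := by
  refine le_trans ?_ (coord_le _ _ 1)
  simp only [yb, PiLp.toLp_apply, Matrix.cons_val_one, Matrix.cons_val_fin_one]
  rw [us_succ]
  have h1 := dl_mono k
  have h2 := dl_pos (k + 1)
  rw [show us k - (us k + dl (k + 1)) = - dl (k + 1) by ring, abs_neg, abs_of_pos h2]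
  exact h1

/-- countable family of targets -/
theorem exists_targets : ∃ V : ℕ → Set (E × ℝ), V 0 = ∅ ∧ (∀ i, IsOpen (V i)) ∧ (∀ i, ∀ p ∈ V i, 0 < p.2 ∧ p.2 < 1) ∧
    (∀ W : Set (E × ℝ), IsOpen W → (∃ p ∈ W, 0 < p.2 ∧ p.2 < 1) → ∃ i, (V i).Nonempty ∧ V i ⊆ W) := by
  obtain ⟨b, hbc, hbe, hb⟩ := TopologicalSpace.exists_countable_basis (E × ℝ)
  set S : Set (E × ℝ) := {p | 0 < p.2 ∧ p.2 < 1} with hS
  have hSo : IsOpen S := (isOpen_lt continuous_const continuous_snd).inter (isOpen_lt continuous_snd continuous_const)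
  set b' : Set (Set (E × ℝ)) := {u | u ∈ b ∧ u ⊆ S} with hb'
  have hb'c : b'.Countable := hbc.mono (fun u hu => hu.1)
  have hsub : ∀ W : Set (E × ℝ), IsOpen W → (∃ p ∈ W, 0 < p.2 ∧ p.2 < 1) → ∃ u ∈ b', u.Nonempty ∧ u ⊆ W := by
    intro W hW hp
    obtain ⟨p, hp, hp'⟩ := hp
    obtain ⟨u, hu, hpu, huW⟩ := hb.exists_subset_of_mem_open (show p ∈ W ∩ S from ⟨hp, hp'⟩) (hW.inter hSo)
    exact ⟨u, ⟨hu, fun q hq => (huW hq).2⟩, ⟨p, hpu⟩, fun q hq => (huW hq).1⟩
  have hne : b'.Nonempty := by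
    obtain ⟨u, hu, -⟩ := hsub Set.univ isOpen_univ ⟨(0, 1/2), mem_univ _, by norm_num, by norm_num⟩
    exact ⟨u, hu⟩
  obtain ⟨f, hf⟩ := hb'c.exists_eq_range hne
  refine ⟨fun n => Nat.casesOn n ∅ f, rfl, ?_, ?_, ?_⟩
  · intro i
    cases i with
    | zero => exact isOpen_empty
    | succ i =>
      have : f i ∈ b' := hf ▸ mem_range_self i
      exact hb.isOpen this.1
  · intro i p hp
    cases i with
    | zero => exact absurd hp (by simp)
    | succ i =>
      have : f i ∈ b' := hf ▸ mem_range_self i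
      exact this.2 hp
  · intro W hW hp
    obtain ⟨u, hu, hu1, hu2⟩ := hsub W hW hp
    rw [hf] at hu
    obtain ⟨i, rfl⟩ := hu
    exact ⟨i + 1, hu1, hu2⟩

end Pool.Agent.Helper83.PM
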